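import Mathlib
import Pool.Agent.MP_3fd310_co.GDefs

section

set_option autoImplicit false

namespace Pool.Agent.MP_3fd310_co.Gen

open Finset

theorem good_single_GLink {V N : Type} [DecidableEq N] (G : SimpleGraph V) (part : V → N)
    (M : Finset (V × V)) (hL : Links G part M) (hS : Sparse (sr part) (tg part) M) :
    Good G part M (fun n => {n}) := by
  refine ⟨hL, hS, ⟨fun n => mem_singleton_self n, fun n m hm => by rw [mem_singleton.1 hm]⟩, ?_, ?_⟩
  · intro n
    have : ins (sr part) (tg part) M {n} = ∅ := by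
      refine eq_empty_of_forall_notMem fun e he => ?_
      obtain ⟨h1, h2, h3⟩ := mem_filter.1 he
      exact (hL.1 e h1).2 ((mem_singleton.1 h2).trans (mem_singleton.1 h3).symm)
    unfold Tight
    rw [this]
    simp
  · intro v _
    refine ⟨∅, ⟨by simp, by simp⟩, ?_, by simp, by simp, by simp, by simp⟩
    intro X hX
    have := hX.card_pos
    simp only [ins, filter_empty, card_empty]
    omega

theorem link_stmt (hF : FreeStmt) (hM : MergeStmt) (hC : CountStmt) : LinkStmt := by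
  intro V N _ _ _ _ _ G part hB hT
  classical
  have hne : ((univ : Finset (Finset (V × V))).filter
      fun M => Links G part M ∧ Sparse (sr part) (tg part) M).Nonempty := by
    refine ⟨∅, mem_filter.2 ⟨mem_univ _, ⟨by simp, by simp⟩, ?_⟩⟩
    intro X hX
    have := hX.card_pos
    simp only [ins, filter_empty, card_empty]
    omega
  obtain ⟨M0, hM0, hmax⟩ := exists_max_image _ card hne
  obtain ⟨-, hL0, hS0⟩ := mem_filter.1 hM0
  have hmax' : ∀ M' : Finset (V × V), Links G part M' → Sparse (sr part) (tg part) M' →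
      M'.card ≤ M0.card := fun M' h1 h2 => hmax M' (mem_filter.2 ⟨mem_univ _, h1, h2⟩)
  have hne2 : ((univ : Finset (Finset (V × V) × (N → Finset N))).filter
      fun z => Good G part z.1 z.2 ∧ z.1.card = M0.card).Nonempty :=
    ⟨(M0, fun n => {n}), mem_filter.2 ⟨mem_univ _, good_single_GLink G part M0 hL0 hS0, rfl⟩⟩
  obtain ⟨⟨M, blk⟩, hz, hzmax⟩ := exists_max_image _ (fun z => ∑ n, (z.2 n).card) hne2
  obtain ⟨-, hG, hc⟩ := mem_filter.1 hz
  dsimp only at hG hc hzmax
  refine ⟨M, hG.1, hG.2.1, hC V N G part M blk hB hT hG.2.1 hG.2.2.1 hG.2.2.2.1 ?_⟩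
  intro u v huv hblk
  by_contra hno
  have hu : ∀ e ∈ M, Cross part blk e → u ≠ e.1 ∧ u ≠ e.2 := fun e he hx =>
    ⟨fun h => hno ⟨e, he, hx, Or.inl h⟩, fun h => hno ⟨e, he, hx, Or.inr (Or.inl h)⟩⟩
  have hv : ∀ e ∈ M, Cross part blk e → v ≠ e.1 ∧ v ≠ e.2 := fun e he hx =>
    ⟨fun h => hno ⟨e, he, hx, Or.inr (Or.inr (Or.inl h))⟩,
      fun h => hno ⟨e, he, hx, Or.inr (Or.inr (Or.inr h))⟩⟩
  obtain ⟨M1, hG1, hc1, hu1, hx1, -⟩ := hF V N G part M blk u hG hu
  obtain ⟨M2, hG2, hc2, hv2, -, hin2⟩ := hF V N G part M1 blk v hG1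
    fun e he hx => hv e ((hx1 e hx).1 he) hx
  have hu2 : ∀ e ∈ M2, u ≠ e.1 ∧ u ≠ e.2 := by
    intro e he
    rcases hin2 e he with h | h
    · exact hu1 e h
    · refine ⟨fun h' => hblk ?_, fun h' => hblk ?_⟩
      · exact hG.2.2.1.2 _ _ (h' ▸ h.1)
      · exact hG.2.2.1.2 _ _ (h' ▸ h.2)
  obtain ⟨blk', hG', hlt⟩ := hM V N G part M2 blk u v hG2
    (fun M' h1 h2 => by have := hmax' M' h1 h2; omega) huv hblk
    fun e he => ⟨(hu2 e he).1, (hu2 e he).2, (hv2 e he).1, (hv2 e he).2⟩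
  have := hzmax (M2, blk') (mem_filter.2 ⟨mem_univ _, hG', by dsimp only; omega⟩)
  dsimp only at this
  omega

theorem links_mono_GLink {V N : Type} {G : SimpleGraph V} {part : V → N}
    {M D : Finset (V × V)} (h : Links G part M) (hD : D ⊆ M) : Links G part D :=
  ⟨fun e he => h.1 e (hD he), fun e he e' he' => h.2 e (hD he) e' (hD he')⟩

theorem graph_stmt (hP : PartStmt) (hT : ToughStmt) (hL : LinkStmt) (hH : HennStmt)
    (hE : EvenStmt) (hI : InitStmt) (hC : CycStmt) : GraphStmt := by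
  intro V _ _ G r d hcov hdeg hconn hrd
  rcases isEmpty_or_nonempty V with hV | hV
  · exact ⟨0, fun i => i.elim0, ⟨fun i => i.elim0, fun v => (hV.false v).elim⟩, fun i => i.elim0⟩
  obtain ⟨N, _, _, part, hcl, hbig⟩ := hP V G r d hcov hdeg hrd
  have hN : Nonempty N := ⟨part hV.some⟩
  obtain ⟨M, hM, hS, hc⟩ := hL V N G part hbig (hT V G r d hcov hconn (by omega))
  obtain ⟨D₁, D₂, h1, h2, hd, hc1, hc2⟩ := hH (V × V) N univ (sr part) (tg part) M
    (fun e _ => ⟨mem_univ _, mem_univ _⟩) hS (by rw [card_univ]; exact hc)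
  obtain ⟨D, hD, hDc, hDe⟩ := hE (V × V) N (sr part) (tg part) D₁ D₂ hd hc1 hc2
  have hDL : Links G part D := links_mono_GLink hM (hD.trans (union_subset h1 h2))
  obtain ⟨σ, hσ⟩ := hI V N G part D hDL hDe
  refine hC V N G part D σ hcl hDL hDc hσ ?_
  obtain ⟨F, hF, -⟩ := hbig hN.some
  have := card_le_univ F
  omega

/-- The polytope theorem. -/
theorem poly_thm (hG : GraphStmt) (hX : ExtStmt) (hS : SegStmt) (hD : DegStmt) (hB : BalStmt)
    (E : Type) [Fintype E] [DecidableEq E] (W : Submodule ℝ (E → ℝ)) (b : E → ℝ)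
    (hs : Simple W b) (hb : Bdd W) (r : ℕ) (hr : 0 < r)
    (h1 : Fintype.card E ≤ r + Module.finrank ℝ W) (h2 : 2400 * r ≤ Module.finrank ℝ W) :
    ∃ (n : ℕ) (f : Fin n → (E → ℝ)), Function.Injective f ∧
      Set.range f = Set.extremePoints ℝ (Poly W b) ∧
      ∀ i : Fin n, IsExtreme ℝ (Poly W b) (segment ℝ (f i) (f (finRotate n i))) := by
  classical
  obtain ⟨hx, hfin⟩ := hX E W b
  let _ : Fintype (Vtx W b) := Fintype.ofFinite _
  obtain ⟨hd, hc⟩ := hD E W b hs hb
  obtain ⟨n, f, hf, hadj⟩ := hG (Vtx W b) (PG W b) r _ (hc r hr h1) hd (hB E W b hs hb hfin) h2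
  refine ⟨n, fun i => (f i).1, fun i j h => hf.1 (Subtype.ext h), ?_,
    fun i => hS E W b hs _ _ (hadj i)⟩
  rw [hx]
  ext x
  constructor
  · rintro ⟨i, rfl⟩
    exact (f i).2
  · intro h
    obtain ⟨i, hi⟩ := hf.2 ⟨x, h⟩
    exact ⟨i, by simp only [hi]⟩

theorem isExtreme_image_GLink {A B : Type} [AddCommGroup A] [Module ℝ A] [AddCommGroup B]
    [Module ℝ B] (φ : A ≃ₗ[ℝ] B) {P : Set A} {x y : A} (h : IsExtreme ℝ P (segment ℝ x y)) :
    IsExtreme ℝ (φ '' P) (segment ℝ (φ x) (φ y)) := by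
  have e : φ '' segment ℝ x y = segment ℝ (φ x) (φ y) :=
    image_segment ℝ φ.toLinearMap.toAffineMap x y
  rw [← e]
  refine ⟨Set.image_mono h.1, ?_⟩
  rintro _ ⟨a, ha, rfl⟩ _ ⟨a', ha', rfl⟩ _ ⟨w, hw, rfl⟩ hop
  have e2 : φ '' openSegment ℝ a a' = openSegment ℝ (φ a) (φ a') :=
    image_openSegment ℝ φ.toLinearMap.toAffineMap a a'
  rw [← e2] at hop
  obtain ⟨w', hw', hww⟩ := hop
  rw [φ.injective hww] at hw'
  exact ⟨a, h.2 ha ha' hw hw', rfl⟩

/-- The transportation theorem from the intermediate statements. -/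
theorem trans_thm (hG : GraphStmt) (hX : ExtStmt) (hS : SegStmt) (hD : DegStmt) (hB : BalStmt)
    (hT : TransStmt) (p q : ℕ) (u : Fin p → ℝ) (v : Fin q → ℝ) (hpq : 2401 * (p + q) < p * q)
    (hu : ∀ i, 0 < u i) (hv : ∀ j, 0 < v j) (hsum : (∑ i, u i) = (∑ j, v j))
    (hnd : ∀ (I : Finset (Fin p)) (J : Finset (Fin q)), I.Nonempty → I ≠ univ → J.Nonempty →
      J ≠ univ → (∑ i ∈ I, u i) ≠ ∑ j ∈ J, v j)
    (P : Set (Fin p → Fin q → ℝ))
    (hP : P = {x | (∀ i j, 0 ≤ x i j) ∧ (∀ i, (∑ j, x i j) = u i) ∧ (∀ j, (∑ i, x i j) = v j)}) :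
    ∃ (n : ℕ) (f : Fin n → (Fin p → Fin q → ℝ)), Function.Injective f ∧
      Set.range f = Set.extremePoints ℝ P ∧
      ∀ i : Fin n, IsExtreme ℝ P (segment ℝ (f i) (f (finRotate n i))) := by
  have hp : 0 < p := by
    rcases Nat.eq_zero_or_pos p with h | h
    · subst h
      simp at hpq
    · exact h
  obtain ⟨W, b, hs, hb, hrk, hmem⟩ := hT p q u v hp hu hv hsum hnd
  obtain ⟨n, f, hf, hr, hseg⟩ := poly_thm hG hX hS hD hB (Fin p × Fin q) W b hs hb (p + q)
    (by omega) (by simpa using hrk) (by omega)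
  let φ : (Fin p × Fin q → ℝ) ≃ₗ[ℝ] (Fin p → Fin q → ℝ) := LinearEquiv.curry ℝ ℝ (Fin p) (Fin q)
  have hφ : ∀ x i j, φ x i j = x (i, j) := fun _ _ _ => rfl
  have hPe : φ '' Poly W b = P := by
    rw [hP]
    ext x
    constructor
    · rintro ⟨y, hy, rfl⟩
      exact (hmem y).1 hy
    · intro hx
      refine ⟨φ.symm x, (hmem _).2 ?_, φ.apply_symm_apply x⟩
      exact hx
  refine ⟨n, fun i => φ (f i), fun i j h => hf (φ.injective h), ?_, fun i => ?_⟩
  · rw [← hPe, ← image_extremePoints φ, ← hr, ← Set.range_comp]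
    rfl
  · rw [← hPe]
    exact isExtreme_image_GLink φ (hseg i)

end Pool.Agent.MP_3fd310_co.Gen

end

section

set_option autoImplicit false

namespace Pool.Agent.MP_3fd310_co.Gen

open Finset

theorem maxfam_GPart {V : Type} [Fintype V] [DecidableEq V] (Q : Finset V → Prop) :
    ∃ P : Finset (Finset V), (∀ p ∈ P, Q p) ∧ (∀ p ∈ P, ∀ p' ∈ P, p ≠ p' → Disjoint p p') ∧
      ∀ q, Q q → q.Nonempty → ∃ p ∈ P, ¬ Disjoint p q := by
  classical
  have hne : ((univ : Finset (Finset (Finset V))).filter fun P =>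
      (∀ p ∈ P, Q p) ∧ ∀ p ∈ P, ∀ p' ∈ P, p ≠ p' → Disjoint p p').Nonempty :=
    ⟨∅, mem_filter.2 ⟨mem_univ _, by simp, by simp⟩⟩
  obtain ⟨P, hP, hmax⟩ := exists_max_image _ card hne
  obtain ⟨-, h1, h2⟩ := mem_filter.1 hP
  refine ⟨P, h1, h2, fun q hq hqn => ?_⟩
  by_contra hno
  push Not at hno
  have hqP : q ∉ P := fun h => by
    obtain ⟨a, ha⟩ := hqn
    exact disjoint_left.1 (hno q h) ha ha
  have := hmax (insert q P) (mem_filter.2 ⟨mem_univ _, ?_, ?_⟩)
  · rw [card_insert_of_notMem hqP] at this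
    omega
  · intro p hp
    rcases mem_insert.1 hp with rfl | hp
    · exact hq
    · exact h1 p hp
  · intro p hp p' hp' hne
    rcases mem_insert.1 hp with rfl | hp1
    · rcases mem_insert.1 hp' with rfl | hp2
      · exact absurd rfl hne
      · exact (hno p' hp2).symm
    · rcases mem_insert.1 hp' with rfl | hp2
      · exact hno p hp1
      · exact h2 p hp1 p' hp2 hne

theorem left_GPart {V : Type} [DecidableEq V] {r : ℕ} (k : ℕ) (c : V → Fin r)
    (Q : Finset V → Prop) (P : Finset (Finset V))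
    (hmax : ∀ q, Q q → q.Nonempty → ∃ p ∈ P, ¬ Disjoint p q) (X : Finset V)
    (hX : ∀ q ⊆ X, q.card = k + 1 → (∀ x ∈ q, ∀ y ∈ q, c x = c y) → Q q)
    (hX' : ∀ x ∈ X, ∀ p ∈ P, x ∉ p) : X.card ≤ k * r := by
  have h := card_le_mul_card_image_of_maps_to (s := X) (t := (univ : Finset (Fin r))) (f := c)
    (fun _ _ => mem_univ _) k ?_
  · simpa using h
  intro j _
  by_contra hlt
  obtain ⟨q, hq, hqc⟩ := exists_subset_card_eq (s := X.filter fun x => c x = j) (n := k + 1)
    (by omega)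
  have hqX : q ⊆ X := hq.trans (filter_subset _ _)
  obtain ⟨p, hp, hd⟩ := hmax q (hX q hqX hqc fun x hx y hy =>
    (mem_filter.1 (hq hx)).2.trans (mem_filter.1 (hq hy)).2.symm) (card_pos.1 (by omega))
  exact hd (disjoint_right.2 fun a ha => hX' a (hqX ha) p hp)

theorem part_stmt (hH : HaxellStmt) : PartStmt := by
  intro V _ _ G r d hcov hdeg hrd
  classical
  rcases isEmpty_or_nonempty V with hV | hV
  · exact ⟨Empty, inferInstance, inferInstance, fun v => (hV.false v).elim,
      fun v => (hV.false v).elim, fun n => n.elim⟩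
  choose c hc using hcov
  have hr : 0 < r := (c hV.some hV.some).pos
  obtain ⟨P, hPQ, hPd, hPm⟩ := maxfam_GPart
    (fun p : Finset V => p.card = 9 ∧ ∀ x ∈ p, ∀ y ∈ p, x ≠ y → G.Adj x y)
  have hU : ∀ (w : V) (X : Finset V), (∀ x ∈ X, (∀ p ∈ P, x ∉ p) ∧ G.Adj w x) →
      X.card ≤ 8 * r := fun w X hX =>
    left_GPart 8 (c w) _ P hPm X (fun q hq hqc hcol => ⟨hqc, fun x hx y hy hxy =>
      hc w x y (hX x (hq hx)).2 (hX y (hq hy)).2 (hcol x hx y hy) hxy⟩) fun x hx => (hX x hx).1
  have hhome : ∀ a : V, ∃ p : Finset V, p.card ≤ 9 ∧ ((∃ p' ∈ P, a ∈ p') → p ∈ P ∧ a ∈ p) := by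
    intro a
    by_cases h : ∃ p' ∈ P, a ∈ p'
    · obtain ⟨p, hp, ha⟩ := h
      exact ⟨p, (hPQ p hp).1.le, fun _ => ⟨hp, ha⟩⟩
    · exact ⟨∅, by simp, fun h' => absurd h' h⟩
  choose home hh9 hhome using hhome
  have hhome' : ∀ a, ∀ p ∈ P, a ∈ p → home a = p := by
    intro a p hp ha
    obtain ⟨h1, h2⟩ := hhome a ⟨p, hp, ha⟩
    by_contra hne
    exact disjoint_left.1 (hPd _ h1 _ hp hne) h2 ha
  have hO : ∀ u : V, ∃ O : Finset (Finset V),
      (∀ q ∈ O, q.card = 4 ∧ (∀ x ∈ q, (∃ p ∈ P, x ∈ p) ∧ G.Adj u x) ∧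
        ∀ x ∈ q, ∀ y ∈ q, x ≠ y → G.Adj x y) ∧
      (∀ q ∈ O, ∀ q' ∈ O, q ≠ q' → Disjoint q q') ∧ 576 * r < O.card := by
    intro u
    obtain ⟨O, h1, h2, h3⟩ := maxfam_GPart (fun q : Finset V => q.card = 4 ∧
      (∀ x ∈ q, (∃ p ∈ P, x ∈ p) ∧ G.Adj u x) ∧ ∀ x ∈ q, ∀ y ∈ q, x ≠ y → G.Adj x y)
    refine ⟨O, h1, h2, ?_⟩
    obtain ⟨s, hs, hsa⟩ := hdeg u
    have a1 := hU u (s.filter fun x => ∀ p ∈ P, x ∉ p) fun x hx =>
      ⟨(mem_filter.1 hx).2, hsa x (mem_filter.1 hx).1⟩
    have a2 := left_GPart 3 (c u) _ O h3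
      (s.filter fun x => (∃ p ∈ P, x ∈ p) ∧ ∀ q ∈ O, x ∉ q)
      (fun q hq hqc hcol => ⟨hqc, fun x hx =>
        ⟨(mem_filter.1 (hq hx)).2.1, hsa x (mem_filter.1 (hq hx)).1⟩, fun x hx y hy hxy =>
        hc u x y (hsa x (mem_filter.1 (hq hx)).1) (hsa y (mem_filter.1 (hq hy)).1)
          (hcol x hx y hy) hxy⟩) fun x hx => (mem_filter.1 hx).2.2
    have a3 : (O.biUnion id).card ≤ O.card * 4 :=
      card_biUnion_le_card_mul _ _ _ fun q hq => (h1 q hq).1.le
    have a4 : s ⊆ (s.filter fun x => ∀ p ∈ P, x ∉ p) ∪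
        (s.filter fun x => (∃ p ∈ P, x ∈ p) ∧ ∀ q ∈ O, x ∉ q) ∪ O.biUnion id := by
      intro x hx
      simp only [mem_union, mem_filter, mem_biUnion, id]
      by_cases h : ∃ q ∈ O, x ∈ q
      · exact Or.inr h
      · by_cases h' : ∃ p ∈ P, x ∈ p
        · exact Or.inl (Or.inr ⟨hx, h', fun q hq hxq => h ⟨q, hq, hxq⟩⟩)
        · exact Or.inl (Or.inl ⟨hx, fun p hp hxp => h' ⟨p, hp, hxp⟩⟩)
    have a5 := (card_le_card a4).trans ((card_union_le _ _).trans
      (Nat.add_le_add_right (card_union_le _ _) _))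
    omega
  choose O hOQ hOd hOc using hO
  let I : Type := {u : V // ∀ p ∈ P, u ∉ p}
  let Ω : Type := {x : I × Finset V // x.2 ∈ O x.1.1}
  obtain ⟨T, hT1, hT2⟩ := hH I Ω (fun x => x.1.1)
    (fun x y => ∃ a ∈ x.1.2, ∃ b ∈ y.1.2, home a = home b) (288 * r)
    (fun x y ⟨a, ha, b, hb, h⟩ => ⟨b, hb, a, ha, h.symm⟩) (by
      intro x s hs
      have b1 : (x.1.2.biUnion home).card ≤ x.1.2.card * 9 :=
        card_biUnion_le_card_mul _ _ _ fun a _ => hh9 a
      have b2 : x.1.2.card = 4 := (hOQ _ _ x.2).1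
      have b3 : s ⊆ (x.1.2.biUnion home).biUnion
          fun b => (univ : Finset Ω).filter fun y => b ∈ y.1.2 := by
        intro y hy
        obtain ⟨a, ha, b, hb, h⟩ := hs y hy
        refine mem_biUnion.2 ⟨b, mem_biUnion.2 ⟨a, ha, ?_⟩, mem_filter.2 ⟨mem_univ _, hb⟩⟩
        rw [h]
        exact (hhome b ((hOQ _ _ y.2).2.1 b hb).1).2
      have b4 : ∀ b : V, ((univ : Finset Ω).filter fun y => b ∈ y.1.2).card ≤ 8 * r := by
        intro b
        have hinj : Set.InjOn (fun y : Ω => y.1.1.1)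
            ((univ : Finset Ω).filter fun y => b ∈ y.1.2 : Finset Ω) := by
          intro y hy y' hy' h
          have e1 : y.1.1 = y'.1.1 := Subtype.ext h
          have e2 : y.1.2 = y'.1.2 := by
            by_contra hne
            have h3 : y'.1.2 ∈ O y.1.1.1 := by rw [e1]; exact y'.2
            exact disjoint_left.1 (hOd _ _ y.2 _ h3 hne) (mem_filter.1 (mem_coe.1 hy)).2
              (mem_filter.1 (mem_coe.1 hy')).2
          exact Subtype.ext (Prod.ext e1 e2)
        rw [← card_image_of_injOn hinj]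
        refine hU b _ fun z hz => ?_
        obtain ⟨y, hy, rfl⟩ := mem_image.1 hz
        exact ⟨y.1.1.2, ((hOQ _ _ y.2).2.1 b (mem_filter.1 hy).2).2.symm⟩
      have b5 := (card_le_card b3).trans (card_biUnion_le_card_mul _ _ _ fun b _ => b4 b)
      calc s.card ≤ _ := b5
        _ ≤ 36 * (8 * r) := Nat.mul_le_mul_right _ (by omega)
        _ = 288 * r := by ring) (by
      intro i
      refine ⟨(O i.1).attach.map ⟨fun q => (⟨(i, q.1), q.2⟩ : Ω), fun q q' h =>
        Subtype.ext (congrArg (fun z : Ω => z.1.2) h)⟩, ?_, ?_⟩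
      · rw [card_map, card_attach]
        have := hOc i.1
        omega
      · intro x hx
        obtain ⟨q, -, rfl⟩ := mem_map.1 hx
        rfl)
  let o : I → Finset V := fun i => (T i).1.2
  have ho : ∀ i, o i ∈ O i.1 := fun i => by
    have := (T i).2
    rw [hT1 i] at this
    exact this
  have hoh : ∀ i j, ∀ a ∈ o i, ∀ b ∈ o j, home a = home b → i = j := fun i j a ha b hb h => by
    by_contra hne
    exact hT2 i j hne ⟨a, ha, b, hb, h⟩
  let R : V → I ⊕ {p // p ∈ P} → Prop := fun v n =>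
    Sum.elim (fun u : I => v = u.1 ∨ v ∈ o u) (fun p => v ∈ p.1 ∧ ∀ u, v ∉ o u) n
  have hex : ∀ v, ∃ n, R v n := by
    intro v
    by_cases h : ∃ u, v ∈ o u
    · obtain ⟨u, hu⟩ := h
      exact ⟨Sum.inl u, Or.inr hu⟩
    · by_cases h' : ∃ p ∈ P, v ∈ p
      · obtain ⟨p, hp, hv⟩ := h'
        exact ⟨Sum.inr ⟨p, hp⟩, hv, fun u hu => h ⟨u, hu⟩⟩
      · exact ⟨Sum.inl ⟨v, fun p hp hv => h' ⟨p, hp, hv⟩⟩, Or.inl rfl⟩
  have hnot : ∀ (u u' : I), u.1 ∉ o u' := fun u u' h => by
    obtain ⟨p, hp, hv⟩ := ((hOQ _ _ (ho u')).2.1 _ h).1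
    exact u.2 p hp hv
  have huniq : ∀ v n n', R v n → R v n' → n = n' := by
    rintro v (u | p) (u' | p') h h'
    · rcases h with h | h <;> rcases h' with h' | h'
      · exact congrArg Sum.inl (Subtype.ext (h.symm.trans h'))
      · exact absurd (h ▸ h') (hnot u u')
      · exact absurd (h' ▸ h) (hnot u' u)
      · exact congrArg Sum.inl (hoh u u' v h v h' rfl)
    · rcases h with h | h
      · exact absurd (h ▸ h'.1) (u.2 p'.1 p'.2)
      · exact absurd h (h'.2 u)
    · rcases h' with h' | h'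
      · exact absurd (h' ▸ h.1) (u'.2 p.1 p.2)
      · exact absurd h' (h.2 u')
    · exact congrArg Sum.inr (Subtype.ext
        ((hhome' v _ p.2 h.1).symm.trans (hhome' v _ p'.2 h'.1)))
  choose part hpart using hex
  refine ⟨I ⊕ {p // p ∈ P}, inferInstance, inferInstance, part, ?_, ?_⟩
  · intro x y hxy hne
    have hx := hpart x
    have hy := hpart y
    rw [hxy] at hx
    rcases hn : part y with u | p <;> rw [hn] at hx hy
    · rcases hx with hx | hx <;> rcases hy with hy | hy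
      · exact absurd (hx.trans hy.symm) hne
      · exact hx ▸ ((hOQ _ _ (ho u)).2.1 y hy).2
      · exact hy ▸ ((hOQ _ _ (ho u)).2.1 x hx).2.symm
      · exact (hOQ _ _ (ho u)).2.2 x hx y hy hne
    · exact (hPQ p.1 p.2).2 x hx.1 y hy.1 hne
  · rintro (u | p)
    · refine ⟨insert u.1 (o u), ?_, fun x hx => huniq x _ _ (hpart x) (mem_insert.1 hx)⟩
      rw [card_insert_of_notMem (hnot u u), (hOQ _ _ (ho u)).1]
    · by_cases h : ∃ u, ∃ a ∈ p.1, a ∈ o u
      · obtain ⟨u, a, ha, hau⟩ := h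
        refine ⟨p.1 \ o u, ?_, fun x hx => huniq x _ _ (hpart x)
          ⟨(mem_sdiff.1 hx).1, fun u' hu' => (mem_sdiff.1 hx).2 ?_⟩⟩
        · have h1 := le_card_sdiff (o u) p.1
          have h2 := (hOQ _ _ (ho u)).1
          have h3 := (hPQ p.1 p.2).1
          omega
        · rw [← hoh u' u x hu' a hau
            ((hhome' x _ p.2 (mem_sdiff.1 hx).1).trans (hhome' a _ p.2 ha).symm)]
          exact hu'
      · refine ⟨p.1, ?_, fun x hx => huniq x _ _ (hpart x) ⟨hx, fun u hu => h ⟨u, x, hx, hu⟩⟩⟩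
        have h3 := (hPQ p.1 p.2).1
        omega

end Pool.Agent.MP_3fd310_co.Gen

end

section

set_option autoImplicit false

namespace Pool.Agent.MP_3fd310_co.Gen

open Finset

theorem tough_stmt : ToughStmt := by
  intro V _ _ G r d hcov hcut hd L S R lab hlab hRS hinj hR
  classical
  choose c hc using hcov
  obtain ⟨ρ0, -⟩ : R.Nonempty := card_pos.1 (by omega)
  have hr : 0 < r := (c ρ0 ρ0).pos
  have key := card_mul_le_card_mul (s := R) (t := S) (m := d) (n := r)
    (fun ρ s => ∃ a, a ∉ S ∧ lab a = lab ρ ∧ G.Adj a s) (fun ρ hρ => ?_) fun s hs => ?_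
  · have h1 : r * (20 * R.card) ≤ r * S.card := by nlinarith
    exact Nat.le_of_mul_le_mul_left h1 hr
  · by_contra hn
    obtain ⟨ρ', hρ', hne⟩ := exists_mem_ne (by omega : 1 < R.card) ρ
    have n1 : ∀ x, x ∉ S → x ∉ S.bipartiteAbove
        (fun ρ s => ∃ a, a ∉ S ∧ lab a = lab ρ ∧ G.Adj a s) ρ :=
      fun x hx h => hx ((mem_bipartiteAbove _).1 h).1
    obtain ⟨a, ha, w, hw1, hw2, haw⟩ := hcut _ (univ.filter fun v => v ∉ S ∧ lab v = lab ρ)
      (not_le.1 hn) ⟨ρ, mem_filter.2 ⟨mem_univ _, disjoint_left.1 hRS hρ, rfl⟩⟩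
      (disjoint_left.2 fun x hx => n1 x (mem_filter.1 hx).2.1)
      ⟨ρ', fun h => hne (hinj hρ' hρ (mem_filter.1 h).2.2), n1 _ (disjoint_left.1 hRS hρ')⟩
    obtain ⟨a1, a2⟩ := (mem_filter.1 ha).2
    by_cases hw : w ∈ S
    · exact hw2 ((mem_bipartiteAbove _).2 ⟨hw, a, a1, a2, haw⟩)
    · exact hw1 (mem_filter.2 ⟨mem_univ _, hw, (hlab a w a1 hw haw).symm.trans a2⟩)
  · have hex : ∀ ρ, ∃ a, ρ ∈ R.bipartiteBelow
        (fun ρ s => ∃ a, a ∉ S ∧ lab a = lab ρ ∧ G.Adj a s) s →
        a ∉ S ∧ lab a = lab ρ ∧ G.Adj a s := fun ρ => by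
      by_cases h : ρ ∈ R.bipartiteBelow (fun ρ s => ∃ a, a ∉ S ∧ lab a = lab ρ ∧ G.Adj a s) s
      · obtain ⟨a, ha⟩ := ((mem_bipartiteBelow _).1 h).2
        exact ⟨a, fun _ => ha⟩
      · exact ⟨ρ, fun h' => absurd h' h⟩
    choose a ha using hex
    refine (card_le_card_of_injOn (t := univ) (fun ρ => c s (a ρ)) (fun _ _ => mem_univ _)
      fun x hx y hy e => ?_).trans (by simp)
    obtain ⟨x1, x2, x3⟩ := ha x hx
    obtain ⟨y1, y2, y3⟩ := ha y hy
    refine hinj ((mem_bipartiteBelow _).1 hx).1 ((mem_bipartiteBelow _).1 hy).1 ?_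
    rw [← x2, ← y2]
    by_cases h : a x = a y
    · rw [h]
    · exact hlab _ _ x1 y1 (hc s _ _ x3.symm y3.symm e h)

end Pool.Agent.MP_3fd310_co.Gen

end

section

set_option autoImplicit false

namespace Pool.Agent.MP_3fd310_co.Gen

open Finset

section
variable {ε N : Type} [DecidableEq N] {s t : ε → N} {M : Finset ε}

lemma mem_GTight {X : Finset N} {e : ε} : e ∈ ins s t M X ↔ e ∈ M ∧ s e ∈ X ∧ t e ∈ X :=
  mem_filter

lemma mono_GTight {M' : Finset ε} {X X' : Finset N} (h : M ⊆ M') (h' : X ⊆ X') :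
    ins s t M X ⊆ ins s t M' X' := fun _ he =>
  mem_GTight.2 ⟨h (mem_GTight.1 he).1, h' (mem_GTight.1 he).2.1, h' (mem_GTight.1 he).2.2⟩

variable [DecidableEq ε]

lemma inter_GTight (A B : Finset N) : ins s t M A ∩ ins s t M B = ins s t M (A ∩ B) := by
  ext e
  simp only [mem_inter, mem_GTight]
  tauto

lemma viol_GTight {M' : Finset ε} {f : ε} (hM : Sparse s t M) (h : M' ⊆ M)
    (hf : ¬ Sparse s t (insert f M')) :
    ∃ Y, (Tight s t M Y ∧ s f ∈ Y ∧ t f ∈ Y) ∧ ins s t M Y ⊆ M' := by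
  simp only [Sparse, not_forall, not_le] at hf
  obtain ⟨Y, hY, h1⟩ := hf
  have h2 := hM Y hY
  have h3 : ins s t M' Y ⊆ ins s t M Y := mono_GTight h Subset.rfl
  have h4 := card_le_card h3
  have h5 : s f ∈ Y ∧ t f ∈ Y := by
    by_contra hn
    have : ins s t (insert f M') Y ⊆ ins s t M' Y := fun e he => by
      obtain ⟨a1, a2⟩ := mem_GTight.1 he
      refine mem_GTight.2 ⟨(mem_insert.1 a1).resolve_left ?_, a2⟩
      rintro rfl
      exact hn a2
    have := card_le_card this
    omega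
  have h6 : ins s t (insert f M') Y ⊆ insert f (ins s t M' Y) := fun e he => by
    obtain ⟨a1, a2⟩ := mem_GTight.1 he
    exact mem_insert.2 ((mem_insert.1 a1).imp_right fun a => mem_GTight.2 ⟨a, a2⟩)
  have h7 := (card_le_card h6).trans (card_insert_le _ _)
  refine ⟨Y, ⟨by unfold Tight; omega, h5⟩, ?_⟩
  rw [← eq_of_subset_of_card_le h3 (by omega)]
  exact filter_subset _ _

end

theorem union_stmt : UnionStmt := by
  intro ε N _ _ s t M A B hM hA hB hne
  have h1 : ins s t M A ∪ ins s t M B ⊆ ins s t M (A ∪ B) :=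
    union_subset (mono_GTight Subset.rfl subset_union_left)
      (mono_GTight Subset.rfl subset_union_right)
  have h2 := card_union_add_card_inter (ins s t M A) (ins s t M B)
  rw [inter_GTight] at h2
  have h3 := card_union_add_card_inter A B
  have h4 := hM _ hne
  have h5 := hM (A ∪ B) (hne.mono (inter_subset_left.trans subset_union_left))
  have h6 := card_le_card h1
  unfold Tight at *
  refine ⟨by omega, by omega, fun e he => mem_union.1 ?_⟩
  rwa [eq_of_subset_of_card_le h1 (by omega)]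

theorem replace_stmt : ReplaceStmt := by
  intro ε N _ _ s t M L X hM hX hL hLX Y hY
  have h1 : ins s t ((M \ ins s t M X) ∪ L) Y ⊆
      (ins s t M Y \ ins s t M X) ∪ ins s t L (X ∩ Y) := fun e he => by
    obtain ⟨a1, a2⟩ := mem_GTight.1 he
    rcases mem_union.1 a1 with a | a
    · exact mem_union_left _ (mem_sdiff.2 ⟨mem_GTight.2 ⟨(mem_sdiff.1 a).1, a2⟩, (mem_sdiff.1 a).2⟩)
    · exact mem_union_right _ (mem_GTight.2
        ⟨a, mem_inter.2 ⟨(hLX e a).1, a2.1⟩, mem_inter.2 ⟨(hLX e a).2, a2.2⟩⟩)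
  have h2 := (card_le_card h1).trans (card_union_le _ _)
  rcases (X ∩ Y).eq_empty_or_nonempty with h | h
  · have h3 : ins s t L (X ∩ Y) = ∅ := by
      rw [h]
      exact eq_empty_of_forall_notMem fun e he => notMem_empty _ (mem_GTight.1 he).2.1
    have h4 : (ins s t M Y \ ins s t M X).card ≤ (ins s t M Y).card := card_le_card sdiff_subset
    have h5 := hM Y hY
    rw [h3, card_empty] at h2
    omega
  · have h3 := hL _ h
    have h4 := card_sdiff_add_card (ins s t M Y) (ins s t M X)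
    have h5 : (ins s t M Y ∪ ins s t M X).card ≤ (ins s t M (X ∪ Y)).card :=
      card_le_card (union_subset (mono_GTight Subset.rfl subset_union_right)
        (mono_GTight Subset.rfl subset_union_left))
    have h6 := hM (X ∪ Y) (hY.mono subset_union_right)
    have h7 := card_union_add_card_inter X Y
    unfold Tight at hX
    omega

theorem exch_stmt : ExchStmt := by
  intro ε N _ _ s t M f hM hf
  obtain ⟨Y0, h0, -⟩ := viol_GTight hM Subset.rfl hf
  obtain ⟨Y, hY, hmin⟩ := (wellFounded_lt (α := Finset N)).has_min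
    {Y | Tight s t M Y ∧ s f ∈ Y ∧ t f ∈ Y} ⟨Y0, h0⟩
  refine ⟨Y, hY.1, hY.2.1, hY.2.2, fun e he => ?_⟩
  by_contra hn
  obtain ⟨Y', h1, h2⟩ := viol_GTight hM (erase_subset e M) hn
  have h3 : s f ∈ Y ∩ Y' := mem_inter.2 ⟨hY.2.1, h1.2.1⟩
  have h4 := hmin (Y ∩ Y') ⟨(union_stmt ε N s t M Y Y' hM hY.1 h1.1 ⟨_, h3⟩).2.1, h3,
    mem_inter.2 ⟨hY.2.2, h1.2.2⟩⟩
  have h5 : Y ∩ Y' = Y := (inter_subset_left.eq_or_ssubset).resolve_right h4
  exact notMem_erase e M (h2 (mono_GTight Subset.rfl (inter_eq_left.1 h5) he))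

theorem blk_stmt : BlkStmt := by
  intro ε N _ _ s t M blk Y hM hb hT hY
  have key : ∀ Y' : Finset N, Y' ⊆ Y → Tight s t M (Y ∪ Y'.biUnion blk) ∧
      ∀ e ∈ ins s t M (Y ∪ Y'.biUnion blk), e ∈ ins s t M Y ∨ blk (s e) = blk (t e) := by
    intro Y'
    induction Y' using Finset.induction_on with
    | empty =>
      intro _
      rw [biUnion_empty, union_empty]
      exact ⟨hY, fun e he => Or.inl he⟩
    | insert y Y' _ ih =>
      intro h
      obtain ⟨h1, h2⟩ := ih ((subset_insert _ _).trans h)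
      obtain ⟨h3, -, h4⟩ := union_stmt ε N s t M _ (blk y) hM h1 (hT y)
        ⟨y, mem_inter.2 ⟨mem_union_left _ (h (mem_insert_self _ _)), hb.1 y⟩⟩
      rw [biUnion_insert, union_comm (blk y), ← union_assoc]
      refine ⟨h3, fun e he => (h4 e he).elim (h2 e) fun a => Or.inr ?_⟩
      obtain ⟨-, a1, a2⟩ := mem_GTight.1 a
      rw [hb.2 y _ a1, hb.2 y _ a2]
  have h := key Y Subset.rfl
  rwa [union_eq_right.2 fun y hy => mem_biUnion.2 ⟨y, hy, hb.1 y⟩] at h

end Pool.Agent.MP_3fd310_co.Gen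

end

section

set_option autoImplicit false
namespace Pool.Agent.MP_3fd310_co.Gen
open Finset

theorem apart_symm_GFree {V : Type} {e e' : V × V} (h : Apart e e') : Apart e' e :=
  ⟨h.1.symm, h.2.2.1.symm, h.2.1.symm, h.2.2.2.symm⟩

theorem free_stmt (hR : ReplaceStmt) : FreeStmt := by
  intro V N _ _ G part M blk v hG hv
  obtain ⟨hL, hS, hB, hT, hF⟩ := hG
  obtain ⟨L, lL, lS, lX, lc, lv, lA⟩ := hF v hv
  set X := blk (part v) with hX
  have hin : ∀ n, n ∈ X ↔ blk n = X := fun n =>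
    ⟨fun h => hB.2 _ _ h, fun h => h ▸ hB.1 n⟩
  have hins : ∀ (K : Finset (V × V)) (Y : Finset N) (e : V × V),
      e ∈ ins (sr part) (tg part) K Y ↔ e ∈ K ∧ part e.1 ∈ Y ∧ part e.2 ∈ Y := by
    intro K Y e
    simp [ins, sr, tg]
  have hmem : ∀ e, e ∈ (M \ ins (sr part) (tg part) M X) ∪ L ↔
      (e ∈ M ∧ ¬ (part e.1 ∈ X ∧ part e.2 ∈ X)) ∨ e ∈ L := by
    intro e
    rw [mem_union, mem_sdiff, hins]
    tauto
  have hnc : ∀ e : V × V, part e.1 ∈ X ∧ part e.2 ∈ X → ¬ Cross part blk e := by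
    intro e h hc
    exact hc (((hin _).1 h.1).trans ((hin _).1 h.2).symm)
  have hout : ∀ e : V × V, ¬ (part e.1 ∈ X ∧ part e.2 ∈ X) → ¬ Cross part blk e →
      part e.1 ∉ X ∧ part e.2 ∉ X := by
    intro e h hc
    have hc' : blk (part e.1) = blk (part e.2) := not_not.1 hc
    rw [hin, hin] at h ⊢
    rw [hc'] at h ⊢
    tauto
  have hcr : ∀ e, Cross part blk e → (e ∈ (M \ ins (sr part) (tg part) M X) ∪ L ↔ e ∈ M) := by
    intro e hc
    rw [hmem]
    constructor
    · rintro (h | h)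
      · exact h.1
      · exact absurd hc (hnc e (lX e h))
    · exact fun h => Or.inl ⟨h, fun h' => hnc e h' hc⟩
  have hap : ∀ e ∈ M, ¬ (part e.1 ∈ X ∧ part e.2 ∈ X) → ∀ e' ∈ L, Apart e' e := by
    intro e he hn e' he'
    by_cases hc : Cross part blk e
    · exact lA e' he' e he hc
    · obtain ⟨h1, h2⟩ := hout e hn hc
      obtain ⟨h3, h4⟩ := lX e' he'
      exact ⟨fun h => h1 (h ▸ h3), fun h => h2 (h ▸ h3), fun h => h1 (h ▸ h4),
        fun h => h2 (h ▸ h4)⟩
  have hTX : (ins (sr part) (tg part) M X).card + 2 = 2 * X.card := hT (part v)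
  refine ⟨(M \ ins (sr part) (tg part) M X) ∪ L, ⟨⟨?_, ?_⟩, ?_, hB, ?_, ?_⟩, ?_, ?_, hcr, ?_⟩
  · intro e he
    rcases (hmem e).1 he with h | h
    · exact hL.1 e h.1
    · exact lL.1 e h
  · intro e he e' he' hne
    rcases (hmem e).1 he with h | h <;> rcases (hmem e').1 he' with h' | h'
    · exact hL.2 e h.1 e' h'.1 hne
    · exact apart_symm_GFree (hap e h.1 h.2 e' h')
    · exact hap e' h'.1 h'.2 e h
    · exact lL.2 e h e' h' hne
  · exact hR _ _ _ _ M L X hS (hT (part v)) lS lX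
  · intro n
    by_cases hn : blk n = X
    · have : ins (sr part) (tg part) ((M \ ins (sr part) (tg part) M X) ∪ L) X = L := by
        ext e
        rw [hins, hmem]
        have := lX e
        tauto
      unfold Tight
      rw [hn, this]
      exact lc
    · have : ins (sr part) (tg part) ((M \ ins (sr part) (tg part) M X) ∪ L) (blk n) =
          ins (sr part) (tg part) M (blk n) := by
        ext e
        rw [hins, hins, hmem]
        have h1 : part e.1 ∈ blk n → part e.1 ∉ X :=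
          fun h h' => hn ((hB.2 _ _ h).symm.trans ((hin _).1 h'))
        have := lX e
        tauto
      unfold Tight
      rw [this]
      exact hT n
  · intro w hw
    obtain ⟨L', a1, a2, a3, a4, a5, a6⟩ := hF w (fun e he hc => hw e ((hcr e hc).2 he) hc)
    exact ⟨L', a1, a2, a3, a4, a5, fun e he e' he' hc => a6 e he e' ((hcr e' hc).1 he') hc⟩
  · have hd : Disjoint (M \ ins (sr part) (tg part) M X) L := by
      rw [disjoint_left]
      intro e he h
      rw [mem_sdiff, hins] at he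
      exact he.2 ⟨he.1, lX e h⟩
    have hs : ins (sr part) (tg part) M X ⊆ M := filter_subset _ _
    rw [card_union_of_disjoint hd]
    have := card_sdiff_add_card_eq_card hs
    omega
  · intro e he
    rcases (hmem e).1 he with h | h
    · by_cases hc : Cross part blk e
      · exact hv e h.1 hc
      · obtain ⟨h1, h2⟩ := hout e h.2 hc
        have h0 : part v ∈ X := hB.1 _
        exact ⟨fun h => h1 (h ▸ h0), fun h => h2 (h ▸ h0)⟩
    · exact lv e h
  · intro e he
    rcases (hmem e).1 he with h | h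
    · exact Or.inl h.1
    · exact Or.inr (lX e h)

end Pool.Agent.MP_3fd310_co.Gen

end

section

set_option autoImplicit false

namespace Pool.Agent.MP_3fd310_co.Gen

open Finset

theorem sparse_mono_GMerge {ε N : Type} [DecidableEq N] (s t : ε → N) {M M' : Finset ε}
    (h : M' ⊆ M) (hM : Sparse s t M) : Sparse s t M' := by
  intro X hX
  have h1 : (ins s t M' X).card ≤ (ins s t M X).card :=
    card_le_card (filter_subset_filter _ h)
  have h2 := hM X hX
  omega

theorem links_mono_GMerge {V N : Type} (G : SimpleGraph V) (part : V → N)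
    {M M' : Finset (V × V)} (h : M' ⊆ M) (hM : Links G part M) : Links G part M' :=
  ⟨fun e he => hM.1 e (h he), fun e he e' he' hne => hM.2 e (h he) e' (h he') hne⟩

theorem apart_symm_GMerge {V : Type} {e e' : V × V} (h : Apart e e') : Apart e' e :=
  ⟨h.1.symm, h.2.2.1.symm, h.2.1.symm, h.2.2.2.symm⟩

theorem mem_ins_GMerge {V N : Type} [DecidableEq N] (part : V → N) (M : Finset (V × V))
    (X : Finset N) (e : V × V) :
    e ∈ ins (sr part) (tg part) M X ↔ e ∈ M ∧ part e.1 ∈ X ∧ part e.2 ∈ X := by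
  simp [ins, sr, tg]

theorem merge_stmt (hR : ReplaceStmt) (hE : ExchStmt) (hB : BlkStmt) : MergeStmt := by
  intro V N _ _ _ G part M blk u v hG hmax huv hne hu
  obtain ⟨hL, hS, hblk, hT, hF⟩ := hG
  have hfM : (u, v) ∉ M := fun h => (hu _ h).1 rfl
  have hpne : part u ≠ part v := fun h => hne (by rw [h])
  have hLf : Links G part (insert (u, v) M) := by
    refine ⟨?_, ?_⟩
    · intro e he
      rcases mem_insert.1 he with rfl | he
      · exact ⟨huv, hpne⟩
      · exact hL.1 e he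
    · intro e he e' he' hee
      rcases mem_insert.1 he with rfl | he
      · rcases mem_insert.1 he' with rfl | he'
        · exact absurd rfl hee
        · exact hu e' he'
      · rcases mem_insert.1 he' with rfl | he'
        · exact apart_symm_GMerge (e := (u, v)) (hu e he)
        · exact hL.2 e he e' he' hee
  have hnS : ¬ Sparse (sr part) (tg part) (insert (u, v) M) := by
    intro h
    have h1 := hmax _ hLf h
    rw [card_insert_of_notMem hfM] at h1
    omega
  obtain ⟨Y, hYT, hYu, hYv, hYe⟩ := hE _ _ (sr part) (tg part) M (u, v) hS hnS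
  obtain ⟨hZT, hZe⟩ := hB _ _ (sr part) (tg part) M blk Y hS hblk hT hYT
  set Z : Finset N := Y.biUnion blk with hZ
  have hZ1 : ∀ m, m ∈ Z → blk m ⊆ Z := by
    intro m hm x hx
    obtain ⟨y, hy, hmy⟩ := mem_biUnion.1 hm
    rw [hblk.2 y m hmy] at hx
    exact mem_biUnion.2 ⟨y, hy, hx⟩
  have hZ2 : ∀ n m, n ∉ Z → m ∈ blk n → m ∉ Z := by
    intro n m hn hm hmZ
    apply hn
    apply hZ1 m hmZ
    rw [hblk.2 n m hm]
    exact hblk.1 n
  have hYZ : Y ⊆ Z := fun y hy => mem_biUnion.2 ⟨y, hy, hblk.1 y⟩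
  have huZ : part u ∈ Z := hYZ hYu
  have hvZ : part v ∈ Z := hYZ hYv
  let blk' : N → Finset N := fun n => if n ∈ Z then Z else blk n
  have hin : ∀ n, n ∈ Z → blk' n = Z := fun n hn => if_pos hn
  have hout : ∀ n, n ∉ Z → blk' n = blk n := fun n hn => if_neg hn
  have hC1 : ∀ e : V × V, Cross part blk' e → Cross part blk e := by
    intro e he h
    apply he
    by_cases h1 : part e.1 ∈ Z
    · have h2 : part e.2 ∈ Z := by
        apply hZ1 _ h1
        rw [h]
        exact hblk.1 _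
      rw [hin _ h1, hin _ h2]
    · have h2 : part e.2 ∉ Z := by
        apply hZ2 _ _ h1
        rw [h]
        exact hblk.1 _
      rw [hout _ h1, hout _ h2]
      exact h
  have hC2 : ∀ e : V × V, Cross part blk' e → ¬ (part e.1 ∈ Z ∧ part e.2 ∈ Z) := by
    intro e he h
    apply he
    rw [hin _ h.1, hin _ h.2]
  have hC3 : ∀ e : V × V, Cross part blk e → ¬ (part e.1 ∈ Z ∧ part e.2 ∈ Z) →
      Cross part blk' e := by
    intro e he h h'
    by_cases h1 : part e.1 ∈ Z
    · have h2 : part e.2 ∉ Z := fun h2 => h ⟨h1, h2⟩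
      rw [hin _ h1, hout _ h2] at h'
      apply h2
      rw [h']
      exact hblk.1 _
    · by_cases h2 : part e.2 ∈ Z
      · rw [hout _ h1, hin _ h2] at h'
        apply h1
        rw [← h']
        exact hblk.1 _
      · rw [hout _ h1, hout _ h2] at h'
        exact he h'
  refine ⟨blk', ⟨hL, hS, ⟨?_, ?_⟩, ?_, ?_⟩, ?_⟩
  · intro n
    by_cases hn : n ∈ Z
    · rw [hin n hn]; exact hn
    · rw [hout n hn]; exact hblk.1 n
  · intro n m hm
    by_cases hn : n ∈ Z
    · rw [hin n hn] at hm ⊢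
      exact hin m hm
    · rw [hout n hn] at hm ⊢
      rw [hout m (hZ2 n m hn hm)]
      exact hblk.2 n m hm
  · intro n
    by_cases hn : n ∈ Z
    · rw [hin n hn]; exact hZT
    · rw [hout n hn]; exact hT n
  · intro w hw
    by_cases hwZ : part w ∈ Z
    · rw [hin _ hwZ]
      by_cases hcov : ∀ e ∈ M, Cross part blk e → w ≠ e.1 ∧ w ≠ e.2
      · obtain ⟨L, hL1, hL2, hL3, hL4, hL5, hL6⟩ := hF w hcov
        set X : Finset N := blk (part w) with hX
        have hXZ : X ⊆ Z := hZ1 _ hwZ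
        have hwX : part w ∈ X := hblk.1 _
        have hkey : ∀ e ∈ M, e ∉ ins (sr part) (tg part) M X → ¬ Cross part blk e →
            part e.1 ∉ X ∧ part e.2 ∉ X := by
          intro e he hn hc
          have hc' : blk (part e.1) = blk (part e.2) := not_not.1 hc
          have h12 : part e.1 ∈ X → part e.2 ∈ X := by
            intro h1
            have h3 := hblk.2 _ _ h1
            rw [hX, ← h3, hc']
            exact hblk.1 _
          have h21 : part e.2 ∈ X → part e.1 ∈ X := by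
            intro h1
            have h3 := hblk.2 _ _ h1
            rw [hX, ← h3, ← hc']
            exact hblk.1 _
          exact ⟨fun h1 => hn ((mem_ins_GMerge part M X e).2 ⟨he, h1, h12 h1⟩),
            fun h1 => hn ((mem_ins_GMerge part M X e).2 ⟨he, h21 h1, h1⟩)⟩
        have hap : ∀ e ∈ M, e ∉ ins (sr part) (tg part) M X → ∀ e' ∈ L, Apart e' e := by
          intro e he hn e' he'
          by_cases hc : Cross part blk e
          · exact hL6 e' he' e he hc
          · obtain ⟨k1, k2⟩ := hkey e he hn hc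
            obtain ⟨k3, k4⟩ := hL3 e' he'
            refine ⟨?_, ?_, ?_, ?_⟩
            · intro h; rw [h] at k3; exact k1 k3
            · intro h; rw [h] at k3; exact k2 k3
            · intro h; rw [h] at k4; exact k1 k4
            · intro h; rw [h] at k4; exact k2 k4
        refine ⟨(ins (sr part) (tg part) M Z \ ins (sr part) (tg part) M X) ∪ L, ⟨?_, ?_⟩, ?_, ?_,
          ?_, ?_, ?_⟩
        · intro e he
          rcases mem_union.1 he with he | he
          · exact hL.1 e ((mem_ins_GMerge part M Z e).1 (mem_sdiff.1 he).1).1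
          · exact hL1.1 e he
        · intro e he e' he' hee
          rcases mem_union.1 he with he | he
          · have heM := ((mem_ins_GMerge part M Z e).1 (mem_sdiff.1 he).1).1
            rcases mem_union.1 he' with he' | he'
            · exact hL.2 e heM e' ((mem_ins_GMerge part M Z e').1 (mem_sdiff.1 he').1).1 hee
            · exact apart_symm_GMerge (hap e heM (mem_sdiff.1 he).2 e' he')
          · rcases mem_union.1 he' with he' | he'
            · exact hap e' ((mem_ins_GMerge part M Z e').1 (mem_sdiff.1 he').1).1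
                (mem_sdiff.1 he').2 e he
            · exact hL1.2 e he e' he' hee
        · have h1 := hR _ _ (sr part) (tg part) M L X hS (hT _) hL2 hL3
          refine sparse_mono_GMerge _ _ ?_ h1
          apply union_subset_union _ Subset.rfl
          apply sdiff_subset_sdiff _ Subset.rfl
          exact filter_subset _ _
        · intro e he
          rcases mem_union.1 he with he | he
          · exact ((mem_ins_GMerge part M Z e).1 (mem_sdiff.1 he).1).2
          · exact ⟨hXZ (hL3 e he).1, hXZ (hL3 e he).2⟩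
        · have hdis : Disjoint (ins (sr part) (tg part) M Z \ ins (sr part) (tg part) M X) L := by
            rw [disjoint_left]
            intro e he heL
            apply (mem_sdiff.1 he).2
            exact (mem_ins_GMerge part M X e).2
              ⟨((mem_ins_GMerge part M Z e).1 (mem_sdiff.1 he).1).1, hL3 e heL⟩
          have hsub : ins (sr part) (tg part) M X ⊆ ins (sr part) (tg part) M Z := by
            intro e he
            obtain ⟨k1, k2, k3⟩ := (mem_ins_GMerge part M X e).1 he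
            exact (mem_ins_GMerge part M Z e).2 ⟨k1, hXZ k2, hXZ k3⟩
          have h1 := card_sdiff_add_card_eq_card hsub
          have h2 : (ins (sr part) (tg part) M X).card + 2 = 2 * X.card := hT _
          have h3 : (ins (sr part) (tg part) M Z).card + 2 = 2 * Z.card := hZT
          rw [card_union_of_disjoint hdis]
          omega
        · intro e he
          rcases mem_union.1 he with he | he
          · have heM := ((mem_ins_GMerge part M Z e).1 (mem_sdiff.1 he).1).1
            by_cases hc : Cross part blk e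
            · exact hcov e heM hc
            · obtain ⟨k1, k2⟩ := hkey e heM (mem_sdiff.1 he).2 hc
              refine ⟨?_, ?_⟩
              · intro h; rw [← h] at k1; exact k1 hwX
              · intro h; rw [← h] at k2; exact k2 hwX
          · exact hL5 e he
        · intro e he e' he' hc
          rcases mem_union.1 he with he | he
          · obtain ⟨k1, k2⟩ := (mem_ins_GMerge part M Z e).1 (mem_sdiff.1 he).1
            apply hL.2 e k1 e' he'
            intro h
            rw [h] at k2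
            exact hC2 e' hc k2
          · exact hL6 e he e' he' (hC1 e' hc)
      · push Not at hcov
        obtain ⟨e, heM, hc, hwe⟩ := hcov
        have hwe' : w = e.1 ∨ w = e.2 := by
          by_cases h : w = e.1
          · exact Or.inl h
          · exact Or.inr (hwe h)
        have hZZ : part e.1 ∈ Z ∧ part e.2 ∈ Z := by
          by_contra h
          obtain ⟨k1, k2⟩ := hw e heM (hC3 e hc h)
          rcases hwe' with h | h
          · exact k1 h
          · exact k2 h
        have heZ : e ∈ ins (sr part) (tg part) M Z := (mem_ins_GMerge part M Z e).2 ⟨heM, hZZ⟩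
        have heY : e ∈ ins (sr part) (tg part) M Y := by
          rcases hZe e heZ with h | h
          · exact h
          · exact absurd h hc
        have hsubM : (ins (sr part) (tg part) M Z).erase e ⊆ M.erase e :=
          erase_subset_erase _ (filter_subset _ _)
        have hfn : (u, v) ∉ (ins (sr part) (tg part) M Z).erase e :=
          fun h => hfM (mem_of_mem_erase (hsubM h))
        refine ⟨insert (u, v) ((ins (sr part) (tg part) M Z).erase e), ?_, ?_, ?_, ?_, ?_, ?_⟩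
        · refine links_mono_GMerge G part ?_ hLf
          exact insert_subset_insert _ (hsubM.trans (erase_subset _ _))
        · exact sparse_mono_GMerge _ _ (insert_subset_insert _ hsubM) (hYe e heY)
        · intro a ha
          rcases mem_insert.1 ha with rfl | ha
          · exact ⟨huZ, hvZ⟩
          · exact ((mem_ins_GMerge part M Z a).1 (mem_of_mem_erase ha)).2
        · have h3 : (ins (sr part) (tg part) M Z).card + 2 = 2 * Z.card := hZT
          have h4 := card_erase_add_one heZ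
          rw [card_insert_of_notMem hfn]
          omega
        · intro a ha
          obtain ⟨k1, k2, k3, k4⟩ := hu e heM
          rcases mem_insert.1 ha with rfl | ha
          · rcases hwe' with h | h
            · rw [h]; exact ⟨k1.symm, k3.symm⟩
            · rw [h]; exact ⟨k2.symm, k4.symm⟩
          · have haM := mem_of_mem_erase (hsubM ha)
            obtain ⟨j1, j2, j3, j4⟩ := hL.2 e heM a haM (ne_of_mem_erase ha).symm
            rcases hwe' with h | h
            · rw [h]; exact ⟨j1, j2⟩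
            · rw [h]; exact ⟨j3, j4⟩
        · intro a ha e' he' hc'
          rcases mem_insert.1 ha with rfl | ha
          · exact hu e' he'
          · obtain ⟨k1, k2⟩ := (mem_ins_GMerge part M Z a).1 (mem_of_mem_erase ha)
            apply hL.2 a k1 e' he'
            intro h
            rw [h] at k2
            exact hC2 e' hc' k2
    · rw [hout _ hwZ]
      have hcov : ∀ e ∈ M, Cross part blk e → w ≠ e.1 ∧ w ≠ e.2 := by
        intro e he hc
        refine ⟨?_, ?_⟩
        · intro h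
          refine (hw e he (hC3 e hc ?_)).1 h
          intro k
          rw [← h] at k
          exact hwZ k.1
        · intro h
          refine (hw e he (hC3 e hc ?_)).2 h
          intro k
          rw [← h] at k
          exact hwZ k.2
      obtain ⟨L, hL1, hL2, hL3, hL4, hL5, hL6⟩ := hF w hcov
      exact ⟨L, hL1, hL2, hL3, hL4, hL5, fun e he e' he' hc => hL6 e he e' he' (hC1 e' hc)⟩
  · apply sum_lt_sum
    · intro n _
      by_cases hn : n ∈ Z
      · rw [hin n hn]; exact card_le_card (hZ1 n hn)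
      · rw [hout n hn]
    · refine ⟨part u, mem_univ _, ?_⟩
      rw [hin _ huZ]
      apply card_lt_card
      refine ⟨hZ1 _ huZ, fun h => hne ?_⟩
      exact (hblk.2 _ _ (h hvZ)).symm

end Pool.Agent.MP_3fd310_co.Gen

end

section

set_option autoImplicit false

namespace Pool.Agent.MP_3fd310_co.Gen

open Finset

theorem count_stmt : CountStmt := by
  classical
  intro V N _ _ _ _ _ G part M blk hB hT hS hb ht hadj
  have hm : ∀ n m, m ∈ blk n ↔ blk m = blk n := fun n m => ⟨hb.2 n m, fun h => h ▸ hb.1 m⟩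
  let Bl := univ.image blk
  have h1 : Fintype.card N = ∑ X ∈ Bl, X.card := by
    rw [← card_univ, card_eq_sum_card_image blk]
    refine sum_congr rfl fun X hX => ?_
    obtain ⟨n, -, rfl⟩ := mem_image.1 hX
    congr 1
    ext m
    simp [hm]
  let C := M.filter (Cross part blk)
  have h2 : (M.filter fun e => ¬ Cross part blk e).card =
      ∑ X ∈ Bl, (ins (sr part) (tg part) M X).card := by
    rw [card_eq_sum_card_fiberwise (f := fun e : V × V => blk (part e.1)) (t := Bl)
      fun e _ => mem_coe.2 (mem_image_of_mem _ (mem_univ _))]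
    refine sum_congr rfl fun X hX => ?_
    obtain ⟨n, -, rfl⟩ := mem_image.1 hX
    congr 1
    ext e
    simp only [ins, Cross, sr, tg, mem_filter, hm, not_not]
    exact ⟨fun h => ⟨h.1.1, h.2, h.1.2 ▸ h.2⟩, fun h => ⟨⟨h.1, h.2.1.trans h.2.2.symm⟩, h.2.1⟩⟩
  have h3 : ∑ X ∈ Bl, ((ins (sr part) (tg part) M X).card + 2) = ∑ X ∈ Bl, 2 * X.card :=
    sum_congr rfl fun X hX => by
      obtain ⟨n, -, rfl⟩ := mem_image.1 hX
      exact ht n
  rw [sum_add_distrib, ← h2, ← mul_sum, ← h1, sum_const, smul_eq_mul] at h3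
  have h4 : C.card + _ = M.card := card_filter_add_card_filter_not (s := M) (Cross part blk)
  have h5 := hS univ univ_nonempty
  rw [show ins (sr part) (tg part) M univ = M by simp [ins], card_univ] at h5
  have h6 : 0 < Bl.card := card_pos.2 (univ_nonempty.image _)
  by_contra hne
  let S := C.image Prod.fst ∪ C.image Prod.snd
  have h7 : S.card ≤ C.card + C.card :=
    (card_union_le _ _).trans (add_le_add card_image_le card_image_le)
  let lab : V → Finset N := fun v => blk (part v)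
  obtain ⟨R, h8, h9, h10⟩ := exists_subset_injOn_image_eq_of_surjOn (f := lab) (Sᶜ : Finset V)
    (Sᶜ.image lab) (by rw [coe_image]; exact Set.surjOn_image _ _)
  have h11 : R.card = (Sᶜ.image lab).card := by rw [← h10, card_image_of_injOn h9]
  have h12 : 5 * (Bl \ Sᶜ.image lab).card ≤ S.card := by
    rw [mul_comm, ← smul_eq_mul, ← sum_const]
    refine (sum_le_sum fun X hX => ?_).trans
      ((sum_card_fiberwise_eq_card_filter S _ lab).le.trans (card_filter_le _ _))
    obtain ⟨hX, hX'⟩ := mem_sdiff.1 hX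
    obtain ⟨n, -, rfl⟩ := mem_image.1 hX
    obtain ⟨F, hF, hF'⟩ := hB n
    refine hF.trans (card_le_card fun x hx => mem_filter.2 ⟨?_, by simp only [lab, hF' x hx]⟩)
    by_contra h
    exact hX' (mem_image.2 ⟨x, mem_compl.2 h, by simp only [lab, hF' x hx]⟩)
  have h13 := le_card_sdiff (Sᶜ.image lab) Bl
  have h14 := hT (Finset N) S R lab (fun x y hx hy h => by
    by_contra h'
    obtain ⟨e, he, hc, h⟩ := hadj x y h h'
    have he' : e ∈ C := mem_filter.2 ⟨he, hc⟩
    have a : e.1 ∈ S := mem_union_left _ (mem_image_of_mem _ he')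
    have b : e.2 ∈ S := mem_union_right _ (mem_image_of_mem _ he')
    rcases h with rfl | rfl | rfl | rfl
    exacts [hx a, hx b, hy a, hy b])
    (disjoint_left.2 fun x hx => mem_compl.1 (mem_coe.1 (h8 hx))) h9 (by omega)
  omega

end Pool.Agent.MP_3fd310_co.Gen

end

section

set_option autoImplicit false

namespace Pool.Agent.MP_3fd310_co.Gen

open Finset

/-- The edge `e` joins `x` and `y`. -/
def J_GHenn {ε N : Type} (s t : ε → N) (e : ε) (x y : N) : Prop :=
  (s e = x ∧ t e = y) ∨ (s e = y ∧ t e = x)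

theorem cross_GHenn {ε N : Type} {s t : ε → N} {e : ε} {x y : N} (h : J_GHenn s t e x y)
    (X : Finset N) (hxy : (x ∈ X ∧ y ∉ X) ∨ (x ∉ X ∧ y ∈ X)) :
    (s e ∈ X ∧ t e ∉ X) ∨ (s e ∉ X ∧ t e ∈ X) := by
  rcases h with ⟨h1, h2⟩ | ⟨h1, h2⟩ <;> rw [h1, h2] <;> tauto

theorem lift_GHenn {ε N : Type} [DecidableEq N] {s t s' t' : ε → N} {D D' : Finset ε}
    {U : Finset N} {v : N} (hv : v ∈ U) (hc : Conn s' t' D' (U.erase v))
    (h0 : ∃ e ∈ D, ∃ a ∈ U.erase v, J_GHenn s t e v a)
    (h1 : ∀ e' ∈ D', (s' e' ≠ v ∧ t' e' ≠ v) ∧ ((e' ∈ D ∧ s e' = s' e' ∧ t e' = t' e') ∨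
      (∃ e1 ∈ D, ∃ e2 ∈ D, J_GHenn s t e1 v (s' e') ∧ J_GHenn s t e2 v (t' e')))) :
    Conn s t D U := by
  intro X hXU hXne hXneq
  obtain ⟨e, he, a, ha, hJ⟩ := h0
  have hav : a ≠ v := (mem_erase.1 ha).1
  by_cases hA : X.erase v = ∅
  · refine ⟨e, he, cross_GHenn hJ X (Or.inl ⟨?_, ?_⟩)⟩
    · obtain ⟨x, hx⟩ := hXne
      by_contra hvX
      have : x ∈ X.erase v := mem_erase.2 ⟨fun h => hvX (h ▸ hx), hx⟩
      rw [hA] at this
      simp at this
    · intro haX
      have : a ∈ X.erase v := mem_erase.2 ⟨hav, haX⟩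
      rw [hA] at this
      simp at this
  by_cases hB : X.erase v = U.erase v
  · refine ⟨e, he, cross_GHenn hJ X (Or.inr ⟨?_, ?_⟩)⟩
    · intro hvX
      apply hXneq
      rw [← insert_erase hvX, hB, insert_erase hv]
    · rw [← hB] at ha
      exact (mem_erase.1 ha).2
  obtain ⟨e', he', hx⟩ := hc (X.erase v) (erase_subset_erase v hXU)
    (nonempty_iff_ne_empty.2 hA) hB
  obtain ⟨⟨hs, ht⟩, h2⟩ := h1 e' he'
  simp only [mem_erase, ne_eq, hs, ht, not_false_eq_true, true_and] at hx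
  rcases h2 with ⟨h3, h4, h5⟩ | ⟨e1, he1, e2, he2, hJ1, hJ2⟩
  · exact ⟨e', h3, by rw [h4, h5]; exact hx⟩
  · by_cases hvX : v ∈ X
    · rcases hx with hx | hx
      · exact ⟨e2, he2, cross_GHenn hJ2 X (Or.inl ⟨hvX, hx.2⟩)⟩
      · exact ⟨e1, he1, cross_GHenn hJ1 X (Or.inl ⟨hvX, hx.1⟩)⟩
    · rcases hx with hx | hx
      · exact ⟨e1, he1, cross_GHenn hJ1 X (Or.inr ⟨hvX, hx.1⟩)⟩
      · exact ⟨e2, he2, cross_GHenn hJ2 X (Or.inr ⟨hvX, hx.2⟩)⟩

theorem sparse_mono_GHenn {ε N : Type} [DecidableEq N] {s t : ε → N} {M R : Finset ε}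
    (h : R ⊆ M) (hM : Sparse s t M) : Sparse s t R := by
  intro X hX
  have := card_le_card (filter_subset_filter (fun e => s e ∈ X ∧ t e ∈ X) h)
  have h2 := hM X hX
  unfold ins at *
  omega

/-- The conclusion of the statement. -/
def Two_GHenn {ε N : Type} (s t : ε → N) (M : Finset ε) (U : Finset N) : Prop :=
  ∃ D₁ D₂ : Finset ε, D₁ ⊆ M ∧ D₂ ⊆ M ∧ Disjoint D₁ D₂ ∧ Conn s t D₁ U ∧ Conn s t D₂ U

theorem notin_GHenn {ε N : Type} [DecidableEq N] {s t : ε → N} {M : Finset ε} {v a : N} {e : ε}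
    (hJ : J_GHenn s t e v a) : e ∉ M.filter (fun e => s e ≠ v ∧ t e ≠ v) := by
  intro h
  have := (mem_filter.1 h).2
  rcases hJ with h1 | h1
  · exact this.1 h1.1
  · exact this.2 h1.2

theorem core3_GHenn {ε N : Type} [DecidableEq ε] [DecidableEq N] {s t : ε → N} {M : Finset ε}
    {U : Finset N} {v : N} (hv : v ∈ U) (hMU : ∀ e ∈ M, s e ∈ U ∧ t e ∈ U) (hM : Sparse s t M)
    (ih : ∀ (s t : ε → N) (M : Finset ε), (∀ e ∈ M, s e ∈ U.erase v ∧ t e ∈ U.erase v) →
      Sparse s t M → M.card + 2 = 2 * (U.erase v).card → Two_GHenn s t M (U.erase v))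
    {e1 e2 e3 : ε} {a b c : N} (h1 : e1 ∈ M) (h2 : e2 ∈ M) (h3 : e3 ∈ M)
    (h13 : e1 ≠ e3) (h23 : e2 ≠ e3) (ha : a ∈ U.erase v) (hb : b ∈ U.erase v)
    (hc : c ∈ U.erase v) (hJ1 : J_GHenn s t e1 v a) (hJ2 : J_GHenn s t e2 v b)
    (hJ3 : J_GHenn s t e3 v c)
    (hcard : (M.filter (fun e => s e ≠ v ∧ t e ≠ v)).card + 3 = 2 * (U.erase v).card)
    (hnt : ∀ X : Finset N, v ∉ X → a ∈ X → b ∈ X → ¬ Tight s t M X) :
    Two_GHenn s t M U := by
  set R := M.filter (fun e => s e ≠ v ∧ t e ≠ v) with hR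
  have hRM : R ⊆ M := filter_subset _ _
  have n1 : e1 ∉ R := notin_GHenn hJ1
  have n2 : e2 ∉ R := notin_GHenn hJ2
  have n3 : e3 ∉ R := notin_GHenn hJ3
  set s' := Function.update s e1 a with hs'
  set t' := Function.update t e1 b with ht'
  have hsR : ∀ e ∈ R, s' e = s e := fun e he =>
    Function.update_of_ne (ne_of_mem_of_not_mem he n1) _ _
  have htR : ∀ e ∈ R, t' e = t e := fun e he =>
    Function.update_of_ne (ne_of_mem_of_not_mem he n1) _ _
  have hs1 : s' e1 = a := Function.update_self _ _ _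
  have ht1 : t' e1 = b := Function.update_self _ _ _
  have hends : ∀ e ∈ insert e1 R, s' e ∈ U.erase v ∧ t' e ∈ U.erase v := by
    intro e he
    rcases mem_insert.1 he with rfl | he
    · rw [hs1, ht1]; exact ⟨ha, hb⟩
    · rw [hsR e he, htR e he]
      have h4 := mem_filter.1 he
      exact ⟨mem_erase.2 ⟨h4.2.1, (hMU e h4.1).1⟩, mem_erase.2 ⟨h4.2.2, (hMU e h4.1).2⟩⟩
  have hsp : Sparse s' t' (insert e1 R) := by
    intro X hX
    by_cases hab : a ∈ X ∧ b ∈ X
    · have ha' : a ∈ X.erase v := mem_erase.2 ⟨(mem_erase.1 ha).1, hab.1⟩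
      have hb' : b ∈ X.erase v := mem_erase.2 ⟨(mem_erase.1 hb).1, hab.2⟩
      have k1 := hM (X.erase v) ⟨a, ha'⟩
      have k2 := hnt (X.erase v) (notMem_erase v X) ha' hb'
      have k3 : ins s' t' (insert e1 R) X ⊆ insert e1 (ins s t M (X.erase v)) := by
        intro e he
        obtain ⟨he1, he2⟩ := mem_filter.1 he
        rcases mem_insert.1 he1 with rfl | he1
        · exact mem_insert_self _ _
        · rw [hsR e he1, htR e he1] at he2
          have h4 := mem_filter.1 he1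
          exact mem_insert_of_mem (mem_filter.2 ⟨h4.1, mem_erase.2 ⟨h4.2.1, he2.1⟩,
            mem_erase.2 ⟨h4.2.2, he2.2⟩⟩)
      have k4 := (card_le_card k3).trans (card_insert_le _ _)
      have k5 : (X.erase v).card ≤ X.card := card_erase_le
      unfold Tight at k2
      omega
    · have k3 : ins s' t' (insert e1 R) X ⊆ ins s t M X := by
        intro e he
        obtain ⟨he1, he2⟩ := mem_filter.1 he
        rcases mem_insert.1 he1 with rfl | he1
        · rw [hs1, ht1] at he2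
          exact absurd he2 hab
        · rw [hsR e he1, htR e he1] at he2
          exact mem_filter.2 ⟨hRM he1, he2⟩
      have k1 := hM X hX
      have k4 := card_le_card k3
      omega
  have key : ∀ D₁ D₂ : Finset ε, D₁ ⊆ insert e1 R → D₂ ⊆ insert e1 R → Disjoint D₁ D₂ →
      Conn s' t' D₁ (U.erase v) → Conn s' t' D₂ (U.erase v) → e1 ∉ D₂ → Two_GHenn s t M U := by
    intro D₁ D₂ k1 k2 k3 k4 k5 k6
    have k2' : D₂ ⊆ R := by
      intro e he
      rcases mem_insert.1 (k2 he) with rfl | h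
      · exact absurd he k6
      · exact h
    refine ⟨insert e1 (insert e2 D₁), insert e3 D₂, ?_, ?_, ?_, ?_, ?_⟩
    · refine insert_subset h1 (insert_subset h2 (k1.trans (insert_subset h1 hRM)))
    · exact insert_subset h3 (k2'.trans hRM)
    · rw [disjoint_insert_left, disjoint_insert_left, disjoint_insert_right]
      refine ⟨?_, ?_, ?_, k3⟩
      · rw [mem_insert, not_or]; exact ⟨h13, k6⟩
      · rw [mem_insert, not_or]; exact ⟨h23, fun h => n2 (k2' h)⟩
      · intro h
        rcases mem_insert.1 (k1 h) with h | h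
        · exact h13 h.symm
        · exact n3 h
    · refine lift_GHenn hv k4 ⟨e1, mem_insert_self _ _, a, ha, hJ1⟩ fun e he => ?_
      have k7 := hends e (k1 he)
      refine ⟨⟨(mem_erase.1 k7.1).1, (mem_erase.1 k7.2).1⟩, ?_⟩
      rcases mem_insert.1 (k1 he) with rfl | h
      · right
        rw [hs1, ht1]
        exact ⟨e, mem_insert_self _ _, e2, mem_insert_of_mem (mem_insert_self _ _), hJ1, hJ2⟩
      · left
        exact ⟨mem_insert_of_mem (mem_insert_of_mem he), (hsR e h).symm, (htR e h).symm⟩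
    · refine lift_GHenn hv k5 ⟨e3, mem_insert_self _ _, c, hc, hJ3⟩ fun e he => ?_
      have k7 := hends e (k2 he)
      refine ⟨⟨(mem_erase.1 k7.1).1, (mem_erase.1 k7.2).1⟩, Or.inl ?_⟩
      exact ⟨mem_insert_of_mem he, (hsR e (k2' he)).symm, (htR e (k2' he)).symm⟩
  obtain ⟨D₁, D₂, k1, k2, k3, k4, k5⟩ := ih s' t' (insert e1 R) hends hsp
    (by rw [card_insert_of_notMem n1]; omega)
  by_cases h : e1 ∈ D₂
  · exact key D₂ D₁ k2 k1 k3.symm k5 k4 (disjoint_right.1 k3 h)
  · exact key D₁ D₂ k1 k2 k3 k4 k5 h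

theorem henn_aux_GHenn (hU : UnionStmt) (ε N : Type) [DecidableEq ε] [DecidableEq N] (n : ℕ) :
    ∀ (U : Finset N) (s t : ε → N) (M : Finset ε), U.card = n →
      (∀ e ∈ M, s e ∈ U ∧ t e ∈ U) → Sparse s t M → M.card + 2 = 2 * U.card →
      Two_GHenn s t M U := by
  induction n with
  | zero => intro U s t M hn _ _ hc; omega
  | succ n ih =>
    intro U s t M hn hMU hM hc
    by_cases hn0 : n = 0
    · subst hn0
      have : Conn s t (∅ : Finset ε) U := by
        intro X hXU hX hne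
        exact absurd (eq_of_subset_of_card_le hXU (by have := card_pos.2 hX; omega)) hne
      exact ⟨∅, ∅, empty_subset _, empty_subset _, disjoint_empty_left _, this, this⟩
    have hloop : ∀ e ∈ M, s e ≠ t e := by
      intro e he h
      have k1 := hM {s e} (singleton_nonempty _)
      have k2 : e ∈ ins s t M {s e} := mem_filter.2 ⟨he, mem_singleton_self _, by simp [h]⟩
      have k3 := card_pos.2 ⟨e, k2⟩
      rw [card_singleton] at k1
      omega
    obtain ⟨v, hv, hdeg⟩ : ∃ v ∈ U, (M.filter (fun e => ¬ (s e ≠ v ∧ t e ≠ v))).card ≤ 3 := by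
      by_contra hcon
      push Not at hcon
      have k1 : M.card = ∑ v ∈ U, (M.filter (fun e => s e = v)).card :=
        card_eq_sum_card_fiberwise (fun e he => (hMU e he).1)
      have k2 : M.card = ∑ v ∈ U, (M.filter (fun e => t e = v)).card :=
        card_eq_sum_card_fiberwise (fun e he => (hMU e he).2)
      have k3 : ∑ _v ∈ U, 4 ≤ ∑ v ∈ U, ((M.filter (fun e => s e = v)).card +
          (M.filter (fun e => t e = v)).card) := by
        refine sum_le_sum fun v hv => ?_
        have k4 := hcon v hv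
        have k5 : M.filter (fun e => s e ≠ v → t e = v) ⊆
            M.filter (fun e => s e = v) ∪ M.filter (fun e => t e = v) := by
          intro e he
          obtain ⟨he1, he2⟩ := mem_filter.1 he
          by_cases h : s e = v
          · exact mem_union_left _ (mem_filter.2 ⟨he1, h⟩)
          · exact mem_union_right _ (mem_filter.2 ⟨he1, he2 h⟩)
        have k6 := (card_le_card k5).trans (card_union_le _ _)
        omega
      rw [sum_add_distrib, ← k1, ← k2, sum_const, smul_eq_mul] at k3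
      omega
    set R := M.filter (fun e => s e ≠ v ∧ t e ≠ v) with hR
    set E := M.filter (fun e => ¬ (s e ≠ v ∧ t e ≠ v)) with hE
    have hRE : R.card + E.card = M.card := card_filter_add_card_filter_not _
    have hUv : (U.erase v).card = n := by rw [card_erase_of_mem hv]; omega
    have hends : ∀ e ∈ R, s e ∈ U.erase v ∧ t e ∈ U.erase v := by
      intro e he
      have h4 := mem_filter.1 he
      exact ⟨mem_erase.2 ⟨h4.2.1, (hMU e h4.1).1⟩, mem_erase.2 ⟨h4.2.2, (hMU e h4.1).2⟩⟩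
    have hRle : R.card + 2 ≤ 2 * n := by
      have k1 := hM (U.erase v) (card_pos.1 (by omega))
      have k2 : R ⊆ ins s t M (U.erase v) := fun e he =>
        mem_filter.2 ⟨(mem_filter.1 he).1, hends e he⟩
      have k3 := card_le_card k2
      omega
    have hoth : ∀ e ∈ E, ∃ a ∈ U.erase v, J_GHenn s t e v a := by
      intro e he
      obtain ⟨he1, he2⟩ := mem_filter.1 he
      by_cases h : s e = v
      · exact ⟨t e, mem_erase.2 ⟨fun h' => hloop e he1 (h.trans h'.symm), (hMU e he1).2⟩,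
          Or.inl ⟨h, rfl⟩⟩
      · have h' : t e = v := by
          by_contra h'
          exact he2 ⟨h, h'⟩
        exact ⟨s e, mem_erase.2 ⟨h, (hMU e he1).1⟩, Or.inr ⟨rfl, h'⟩⟩
    have hEM : E ⊆ M := filter_subset _ _
    have hRM : R ⊆ M := filter_subset _ _
    have ih' : ∀ (s t : ε → N) (M : Finset ε), (∀ e ∈ M, s e ∈ U.erase v ∧ t e ∈ U.erase v) →
        Sparse s t M → M.card + 2 = 2 * (U.erase v).card → Two_GHenn s t M (U.erase v) :=
      fun s t M => ih (U.erase v) s t M hUv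
    by_cases h2 : E.card = 2
    · obtain ⟨e1, e2, h12, hE2⟩ := card_eq_two.1 h2
      have m1 : e1 ∈ E := by rw [hE2]; simp
      have m2 : e2 ∈ E := by rw [hE2]; simp
      obtain ⟨a, ha, hJ1⟩ := hoth e1 m1
      obtain ⟨b, hb, hJ2⟩ := hoth e2 m2
      have n1 : e1 ∉ R := notin_GHenn hJ1
      have n2 : e2 ∉ R := notin_GHenn hJ2
      obtain ⟨D₁, D₂, k1, k2, k3, k4, k5⟩ := ih' s t R hends (sparse_mono_GHenn hRM hM)
        (by omega)
      refine ⟨insert e1 D₁, insert e2 D₂, insert_subset (hEM m1) (k1.trans hRM),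
        insert_subset (hEM m2) (k2.trans hRM), ?_, ?_, ?_⟩
      · rw [disjoint_insert_left, disjoint_insert_right]
        refine ⟨?_, fun h => n2 (k1 h), k3⟩
        rw [mem_insert, not_or]; exact ⟨h12, fun h => n1 (k2 h)⟩
      · refine lift_GHenn hv k4 ⟨e1, mem_insert_self _ _, a, ha, hJ1⟩ fun e he => ?_
        exact ⟨(mem_filter.1 (k1 he)).2, Or.inl ⟨mem_insert_of_mem he, rfl, rfl⟩⟩
      · refine lift_GHenn hv k5 ⟨e2, mem_insert_self _ _, b, hb, hJ2⟩ fun e he => ?_
        exact ⟨(mem_filter.1 (k2 he)).2, Or.inl ⟨mem_insert_of_mem he, rfl, rfl⟩⟩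
    · have h3 : E.card = 3 := by omega
      obtain ⟨e1, e2, e3, h12, h13, h23, hE3⟩ := card_eq_three.1 h3
      have m1 : e1 ∈ E := by rw [hE3]; simp
      have m2 : e2 ∈ E := by rw [hE3]; simp
      have m3 : e3 ∈ E := by rw [hE3]; simp
      obtain ⟨a, ha, hJ1⟩ := hoth e1 m1
      obtain ⟨b, hb, hJ2⟩ := hoth e2 m2
      obtain ⟨c, hc', hJ3⟩ := hoth e3 m3
      have hR3 : R.card + 3 = 2 * (U.erase v).card := by omega
      by_cases hab : ∀ X : Finset N, v ∉ X → a ∈ X → b ∈ X → ¬ Tight s t M X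
      · exact core3_GHenn hv hMU hM ih' (hEM m1) (hEM m2) (hEM m3) h13 h23 ha hb hc' hJ1 hJ2 hJ3
          hR3 hab
      by_cases hac : ∀ X : Finset N, v ∉ X → a ∈ X → c ∈ X → ¬ Tight s t M X
      · exact core3_GHenn hv hMU hM ih' (hEM m1) (hEM m3) (hEM m2) h12 h23.symm ha hc' hb hJ1 hJ3
          hJ2 hR3 hac
      exfalso
      push Not at hab hac
      obtain ⟨X, hvX, haX, hbX, hX⟩ := hab
      obtain ⟨Y, hvY, haY, hcY, hY⟩ := hac
      have hXY := (hU ε N s t M X Y hM hX hY ⟨a, mem_inter.2 ⟨haX, haY⟩⟩).1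
      have hvXY : v ∉ X ∪ Y := by rw [mem_union, not_or]; exact ⟨hvX, hvY⟩
      have k1 := hM (insert v (X ∪ Y)) (insert_nonempty _ _)
      rw [card_insert_of_notMem hvXY] at k1
      have hin : ∀ (e : ε) (x : N), e ∈ E → x ∈ X ∪ Y → J_GHenn s t e v x →
          e ∈ ins s t M (insert v (X ∪ Y)) := by
        intro e x he hx hJ
        refine mem_filter.2 ⟨hEM he, ?_⟩
        rcases hJ with ⟨p, q⟩ | ⟨p, q⟩ <;> rw [p, q]
        · exact ⟨mem_insert_self _ _, mem_insert_of_mem hx⟩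
        · exact ⟨mem_insert_of_mem hx, mem_insert_self _ _⟩
      have k2 : E ∪ ins s t M (X ∪ Y) ⊆ ins s t M (insert v (X ∪ Y)) := by
        refine union_subset ?_ ?_
        · rw [hE3]
          refine insert_subset (hin e1 a m1 (mem_union_left _ haX) hJ1)
            (insert_subset (hin e2 b m2 (mem_union_left _ hbX) hJ2) ?_)
          rw [singleton_subset_iff]
          exact hin e3 c m3 (mem_union_right _ hcY) hJ3
        · intro e he
          obtain ⟨p, q, r⟩ := mem_filter.1 he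
          exact mem_filter.2 ⟨p, mem_insert_of_mem q, mem_insert_of_mem r⟩
      have k3 : Disjoint E (ins s t M (X ∪ Y)) := by
        rw [disjoint_left]
        intro e he he'
        obtain ⟨-, q, r⟩ := mem_filter.1 he'
        exact (mem_filter.1 he).2 ⟨fun h => hvXY (h ▸ q), fun h => hvXY (h ▸ r)⟩
      have k4 := card_le_card k2
      rw [card_union_of_disjoint k3] at k4
      unfold Tight at hXY
      omega

theorem henn_stmt (hU : UnionStmt) : HennStmt := by
  intro ε N _ _ U s t M h1 h2 h3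
  exact henn_aux_GHenn hU ε N U.card U s t M rfl h1 h2 h3

end Pool.Agent.MP_3fd310_co.Gen

end

section

set_option autoImplicit false
namespace Pool.Agent.MP_3fd310_co.Gen
open Finset

section
variable {ε N : Type} [DecidableEq ε] [DecidableEq N]

/-- the boundary of an edge modulo two -/
def ed_GEven (s t : ε → N) (e : ε) : N → ZMod 2 := Pi.single (s e) 1 + Pi.single (t e) 1

omit [DecidableEq N] in
lemma self_GEven (f : N → ZMod 2) : f + f = 0 := by
  funext n
  exact CharTwo.add_self_eq_zero (f n)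

omit [DecidableEq ε] in
lemma deg_GEven (s t : ε → N) (J : Finset ε) (n : N) :
    (deg s t J n : ZMod 2) = (∑ e ∈ J, ed_GEven s t e) n := by
  rw [Finset.sum_apply]
  simp only [deg, ed_GEven, Pi.add_apply, sum_add_distrib, card_filter, Nat.cast_add, Nat.cast_sum,
    Pi.single_apply, Nat.cast_ite, Nat.cast_one, Nat.cast_zero, eq_comm (a := n)]

lemma join_GEven (s t : ε → N) (D : Finset ε) (f : N → ZMod 2)
    (hf : f ∈ AddSubmonoid.closure (ed_GEven s t '' (D : Set ε))) :
    ∃ J ⊆ D, ∑ e ∈ J, ed_GEven s t e = f := by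
  induction hf using AddSubmonoid.closure_induction_left with
  | zero => exact ⟨∅, empty_subset _, sum_empty⟩
  | add_left x hx y _ ih =>
    obtain ⟨e, he, rfl⟩ := hx
    obtain ⟨J, hJ, rfl⟩ := ih
    by_cases h : e ∈ J
    · refine ⟨J.erase e, (erase_subset _ _).trans hJ, ?_⟩
      rw [← add_sum_erase J _ h, ← add_assoc, self_GEven, zero_add]
    · exact ⟨insert e J, insert_subset he hJ, sum_insert h⟩

omit [DecidableEq ε] in
lemma pair_GEven [Fintype N] (s t : ε → N) (D : Finset ε) (hD : Conn s t D univ) (a b : N) :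
    (Pi.single a 1 + Pi.single b 1 : N → ZMod 2) ∈
      AddSubmonoid.closure (ed_GEven s t '' (D : Set ε)) := by
  classical
  set S := AddSubmonoid.closure (ed_GEven s t '' (D : Set ε)) with hS
  let X : Finset N := univ.filter fun c => (Pi.single a 1 + Pi.single c 1 : N → ZMod 2) ∈ S
  have hX : ∀ c, c ∈ X ↔ (Pi.single a 1 + Pi.single c 1 : N → ZMod 2) ∈ S := fun c => by
    simp only [X, mem_filter, mem_univ, true_and]
  have ha : a ∈ X := by
    rw [hX, self_GEven]
    exact S.zero_mem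
  have hU : X = univ := by
    by_contra hne
    obtain ⟨e, he, h⟩ := hD X (subset_univ _) ⟨a, ha⟩ hne
    have hm : ed_GEven s t e ∈ S := AddSubmonoid.subset_closure ⟨e, he, rfl⟩
    rcases h with ⟨h1, h2⟩ | ⟨h2, h1⟩
    · apply h2
      have := S.add_mem ((hX _).1 h1) hm
      rw [ed_GEven, add_assoc, ← add_assoc (Pi.single (s e) 1), self_GEven, zero_add] at this
      exact (hX _).2 this
    · apply h2
      have := S.add_mem ((hX _).1 h1) hm
      rw [ed_GEven, add_comm (Pi.single (s e) 1), add_assoc, ← add_assoc (Pi.single (t e) 1),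
        self_GEven, zero_add] at this
      exact (hX _).2 this
  exact (hX b).1 (hU ▸ mem_univ b)

end

theorem even_stmt : EvenStmt := by
  intro ε N _ _ _ s t D₁ D₂ hd h1 h2
  obtain ⟨J, hJ, e⟩ := join_GEven s t D₂ (∑ e ∈ D₁, ed_GEven s t e)
    (AddSubmonoid.sum_mem _ fun e _ => pair_GEven s t D₂ h2 (s e) (t e))
  refine ⟨D₁ ∪ J, union_subset_union_right hJ, fun X hX hne hU => ?_, fun n => ?_⟩
  · obtain ⟨f, hf, h⟩ := h1 X hX hne hU
    exact ⟨f, mem_union_left _ hf, h⟩
  · rw [← ZMod.natCast_eq_zero_iff_even, deg_GEven, sum_union (hd.mono_right hJ), e, self_GEven]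
    rfl

end Pool.Agent.MP_3fd310_co.Gen

end

section

set_option autoImplicit false
namespace Pool.Agent.MP_3fd310_co.Gen
open Finset

theorem colour_GInit {V : Type} (μ τ : Equiv.Perm V) (h1 : μ * μ = 1) (h2 : τ * τ = 1)
    (h : ∀ x, μ x = x ↔ τ x = x) :
    ∃ c : V → Prop, ∀ x, μ x ≠ x → (c (μ x) ↔ ¬ c x) ∧ (c (τ x) ↔ ¬ c x) := by
  have hμ : ∀ x, μ (μ x) = x := fun x => congrArg (fun f : Equiv.Perm V => f x) h1
  have hτ : ∀ x, τ (τ x) = x := fun x => congrArg (fun f : Equiv.Perm V => f x) h2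
  have e1 : μ * (μ * τ) * μ⁻¹ = (μ * τ)⁻¹ := by
    rw [← mul_assoc, h1, one_mul, mul_inv_rev, ← inv_eq_of_mul_eq_one_right h2, inv_inv,
      inv_eq_of_mul_eq_one_right h2]
  have e2 : ∀ (j : ℤ) x, μ (((μ * τ) ^ j) x) = ((μ * τ) ^ (-j)) (μ x) := fun j x => by
    rw [← inv_zpow', ← e1, conj_zpow]
    simp
  have key : ∀ x, μ x ≠ x → ¬ (μ * τ).SameCycle x (μ x) := by
    rintro x hx ⟨k, hk⟩
    have e3 : ∀ j : ℤ, μ (((μ * τ) ^ j) x) ≠ ((μ * τ) ^ j) x := fun j e => by
      have e4 : (μ * τ).SameCycle x (((μ * τ) ^ j) x) := ⟨j, rfl⟩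
      have e5 := e4.eq_of_right (by
        change μ (τ _) = _
        rw [(h _).1 e, e])
      rw [← e5] at e
      exact hx e
    obtain ⟨j, rfl | rfl⟩ := Int.even_or_odd' k
    · refine e3 j ?_
      rw [e2, ← hk, ← Equiv.Perm.mul_apply, ← zpow_add]
      congr 2
      ring
    · refine e3 j ((h _).2 (μ.injective ?_))
      rw [e2, ← hk, ← Equiv.Perm.mul_apply ((μ * τ) ^ (-j)), ← zpow_add,
        show -j + (2 * j + 1) = 1 + j by ring, zpow_add, zpow_one]
      rfl
  let q : V → Set V := fun x => {y | (μ * τ).SameCycle x y}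
  have hq : ∀ x y, q x = q y ↔ (μ * τ).SameCycle x y := fun x y =>
    ⟨fun e => by
      have : y ∈ q y := Equiv.Perm.SameCycle.refl _ _
      rwa [← e] at this,
    fun e => Set.ext fun z => ⟨fun e' => e.symm.trans e', fun e' => e.trans e'⟩⟩
  refine ⟨fun x => WellOrderingRel (q x) (q (μ x)), fun x hx => ?_⟩
  have e6 : WellOrderingRel (q (μ x)) (q x) ↔ ¬ WellOrderingRel (q x) (q (μ x)) :=
    ⟨fun a => asymm a, fun a => ((trichotomous_of WellOrderingRel (q x) (q (μ x))).resolve_left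
      a).resolve_left fun e => key x hx ((hq _ _).1 e)⟩
  have e7 : q (τ x) = q (μ x) := ((hq _ _).2 ⟨1, by simp [hτ]⟩)
  have e8 : q (μ (τ x)) = q x := ((hq _ _).2 ⟨1, by simp⟩).symm
  simp only [hμ, e7, e8, e6, and_self]

theorem pair_GInit {V N : Type} [DecidableEq V] [DecidableEq N] (part : V → N) (F : Finset V)
    (h : ∀ n, Even (F.filter fun x => part x = n).card) :
    ∃ τ : Equiv.Perm V, τ * τ = 1 ∧ (∀ x, τ x = x ↔ x ∉ F) ∧ ∀ x, part (τ x) = part x := by
  induction F using Finset.strongInduction with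
  | H F ih =>
    rcases F.eq_empty_or_nonempty with rfl | ⟨x, hx⟩
    · exact ⟨1, by simp, by simp, by simp⟩
    have h1 : 1 < (F.filter fun z => part z = part x).card := by
      have h2 : 0 < (F.filter fun z => part z = part x).card := card_pos.2 ⟨x, by simp [hx]⟩
      obtain ⟨k, hk⟩ := h (part x)
      omega
    obtain ⟨y, hy, hyx⟩ := exists_mem_ne h1 x
    obtain ⟨hy, hp⟩ := mem_filter.1 hy
    obtain ⟨τ, t1, t2, t3⟩ := ih ((F.erase x).erase y)
      ((erase_subset _ _).trans_ssubset (erase_ssubset hx)) fun n => by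
        rw [filter_erase, filter_erase]
        by_cases e : part x = n
        · rw [card_erase_of_mem (by simp [hyx, hy, hp, e]), card_erase_of_mem (by simp [hx, e])]
          obtain ⟨k, hk⟩ := h n
          rw [e] at h1
          exact ⟨k - 1, by omega⟩
        · rw [erase_eq_of_notMem (by simp [hp, e]), erase_eq_of_notMem (by simp [e])]
          exact h n
    have tx : τ x = x := (t2 x).2 (by simp)
    have ty : τ y = y := (t2 y).2 (by simp)
    have hc : τ * Equiv.swap x y = Equiv.swap x y * τ := by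
      rw [Equiv.mul_swap_eq_swap_mul, tx, ty]
    refine ⟨τ * Equiv.swap x y, ?_, fun z => ?_, fun z => ?_⟩
    · rw [mul_assoc, ← mul_assoc (Equiv.swap x y), ← hc, mul_assoc, Equiv.swap_mul_self, mul_one,
        t1]
    · by_cases e1 : z = x
      · simp [e1, ty, hyx, hx]
      by_cases e2 : z = y
      · simp [e2, tx, hyx.symm, hy]
      simp [Equiv.swap_apply_of_ne_of_ne e1 e2, t2, e1, e2]
    · rw [Equiv.Perm.mul_apply, t3]
      by_cases e1 : z = x
      · simp [e1, hp]
      by_cases e2 : z = y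
      · simp [e2, hp]
      rw [Equiv.swap_apply_of_ne_of_ne e1 e2]

theorem init_stmt : InitStmt := by
  classical
  intro V N _ _ _ G part D ⟨hl, ha⟩ hev
  let R : V → V → Prop := fun x y => (x, y) ∈ D ∨ (y, x) ∈ D
  have hne : ∀ x y, R x y → part x ≠ part y := by
    rintro x y (h | h)
    · exact (hl _ h).2
    · exact (hl _ h).2.symm
  have hu : ∀ x y z, R x y → R x z → y = z := by
    rintro x y z (h | h) (h' | h') <;> by_contra e
    · exact (ha _ h _ h' (by simp [e])).1 rfl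
    · exact (ha _ h _ h' fun e' => (hl _ h).2 (by simp_all)).2.1 rfl
    · exact (ha _ h _ h' fun e' => (hl _ h).2 (by simp_all)).2.2.1 rfl
    · exact (ha _ h _ h' (by simp [e])).2.2.2 rfl
  let m : V → V := fun x => if h : ∃ y, R x y then h.choose else x
  have m1 : ∀ x y, R x y → m x = y := fun x y h => by
    have h' : ∃ y, R x y := ⟨y, h⟩
    simp only [m, dif_pos h']
    exact hu x _ _ h'.choose_spec h
  have m2 : ∀ x, (¬ ∃ y, R x y) → m x = x := fun x h => dif_neg h
  have m3 : Function.Involutive m := fun x => by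
    by_cases h : ∃ y, R x y
    · obtain ⟨y, hy⟩ := h
      rw [m1 x y hy, m1 y x hy.symm]
    · rw [m2 x h, m2 x h]
  obtain ⟨τ, t1, t2, t3⟩ := pair_GInit part (univ.filter fun x => ∃ y, R x y) fun n => by
    convert hev n using 1
    rw [deg, ← card_image_of_injOn (f := Prod.fst) (s := D.filter fun e => sr part e = n),
      ← card_image_of_injOn (f := Prod.snd) (s := D.filter fun e => tg part e = n),
      ← card_union_of_disjoint]
    · congr 1
      ext x
      simp only [R, sr, tg, mem_filter, mem_univ, true_and, mem_union, mem_image, Prod.exists]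
      constructor
      · rintro ⟨⟨y, h | h⟩, e⟩
        · exact Or.inl ⟨x, y, ⟨h, e⟩, rfl⟩
        · exact Or.inr ⟨y, x, ⟨h, e⟩, rfl⟩
      · rintro (⟨a, b, ⟨h, e⟩, rfl⟩ | ⟨a, b, ⟨h, e⟩, rfl⟩)
        · exact ⟨⟨b, Or.inl h⟩, e⟩
        · exact ⟨⟨a, Or.inr h⟩, e⟩
    · rw [disjoint_left]
      intro x h1 h2
      obtain ⟨e, he, rfl⟩ := mem_image.1 h1
      obtain ⟨e', he', h3⟩ := mem_image.1 h2
      refine (ha e (mem_filter.1 he).1 e' (mem_filter.1 he').1 ?_).2.1 h3.symm
      rintro rfl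
      exact (hl e (mem_filter.1 he).1).2 (by rw [h3])
    · intro e he e' he' h
      by_contra hh
      exact (ha e (mem_filter.1 he).1 e' (mem_filter.1 he').1 hh).2.2.2 h
    · intro e he e' he' h
      by_contra hh
      exact (ha e (mem_filter.1 he).1 e' (mem_filter.1 he').1 hh).1 h
  have m4 : ∀ x, m x = x ↔ τ x = x := fun x => by
    rw [t2]
    simp only [mem_filter, mem_univ, true_and]
    exact ⟨fun h ⟨y, hy⟩ => hne x y hy (by rw [← m1 x y hy, h]), m2 x⟩
  obtain ⟨c, hc⟩ := colour_GInit m3.toPerm τ (Equiv.ext m3) t1 m4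
  simp only [Function.Involutive.coe_toPerm] at hc
  let s : V → V := fun x => if c x then τ x else m x
  have key : ∀ x y, c x → ¬ c y → τ x ≠ m y := fun x y hx hy e => by
    by_cases h : m x = x
    · rw [(m4 x).1 h] at e
      exact hy (by rwa [← m3 y, ← e, h])
    by_cases h' : m y = y
    · have e1 : τ (τ x) = x := congrArg (fun f : Equiv.Perm V => f x) t1
      rw [e, h', (m4 y).1 h'] at e1
      exact hy (e1 ▸ hx)
    exact (hc x h).2.1 (e ▸ (hc y h').1.2 hy) hx
  have hs : Function.Injective s := fun x y e => by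
    by_cases hx : c x <;> by_cases hy : c y <;> simp only [s, hx, hy, if_true, if_false] at e
    · exact τ.injective e
    · exact (key x y hx hy e).elim
    · exact (key y x hy hx e.symm).elim
    · exact m3.injective e
  refine ⟨Equiv.ofBijective s hs.bijective_of_finite, fun x => ?_, fun e he => ?_⟩
  · by_cases hx : c x <;> simp only [Equiv.ofBijective_apply, s, hx, if_true, if_false]
    · exact Or.inl (t3 x)
    · by_cases h : ∃ y, R x y
      · obtain ⟨y, hy⟩ := h
        rw [m1 x y hy]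
        exact Or.inr hy
      · rw [m2 x h]
        exact Or.inl rfl
  · have e1 : m e.1 = e.2 := m1 _ _ (Or.inl he)
    have e2 : m e.2 = e.1 := m1 _ _ (Or.inr he)
    have e3 := (hc e.1 (by rw [e1]; exact (hl e he).1.ne')).1
    rw [e1] at e3
    by_cases hx : c e.1
    · have hy : ¬ c e.2 := fun h => e3.1 h hx
      simp only [Equiv.ofBijective_apply, s, hx, hy, if_true, if_false]
      exact Or.inr ⟨e2, fun h => (hl e he).2 (by rw [← h, t3])⟩
    · have hy : c e.2 := e3.2 hx
      simp only [Equiv.ofBijective_apply, s, hx, hy, if_true, if_false]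
      exact Or.inl ⟨e1, fun h => (hl e he).2 (by rw [← h, t3])⟩

end Pool.Agent.MP_3fd310_co.Gen

end

section

set_option autoImplicit false
namespace Pool.Agent.MP_3fd310_co.Gen
open Finset

lemma eq_of_mem_GCyc {V N : Type} {G : SimpleGraph V} {part : V → N} {D : Finset (V × V)}
    (hL : Links G part D) {e e' : V × V} (he : e ∈ D) (he' : e' ∈ D) {x : V}
    (h1 : x = e.1 ∨ x = e.2) (h2 : x = e'.1 ∨ x = e'.2) : e = e' := by
  by_contra hne
  obtain ⟨a1, a2, a3, a4⟩ := hL.2 e he e' he' hne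
  rcases h1 with h1 | h1 <;> rcases h2 with h2 | h2
  · exact a1 (h1.symm.trans h2)
  · exact a2 (h1.symm.trans h2)
  · exact a3 (h1.symm.trans h2)
  · exact a4 (h1.symm.trans h2)

lemma good_GCyc {V N : Type} {G : SimpleGraph V} {part : V → N} {D : Finset (V × V)}
    (hL : Links G part D) {σ : Equiv.Perm V} (hA : Adm part D σ) (x : V) :
    ∃ z, σ.SameCycle x z ∧ part z = part x ∧ part (σ z) = part z := by
  by_cases h1 : part (σ x) = part x
  · exact ⟨x, Equiv.Perm.SameCycle.refl _ _, rfl, h1⟩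
  have hu : σ (σ.symm x) = x := σ.apply_symm_apply x
  by_cases h2 : part x = part (σ.symm x)
  · refine ⟨σ.symm x, ?_, h2.symm, by rw [hu, h2.symm]⟩
    exact ⟨-1, by simp [Equiv.Perm.inv_def]⟩
  exfalso
  have hne : σ x ≠ x := fun h => h1 (by rw [h])
  have a1 := (hA.1 x).resolve_left h1
  have a2 := hA.1 (σ.symm x)
  rw [hu] at a2
  have a3 := a2.resolve_left h2
  have key : σ x = σ.symm x := by
    rcases a1 with a1 | a1 <;> rcases a3 with a3 | a3
    · have h := eq_of_mem_GCyc hL a1 a3 (Or.inl rfl) (Or.inr rfl)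
      exact absurd (congrArg Prod.snd h) hne
    · have h := eq_of_mem_GCyc hL a1 a3 (Or.inl rfl) (Or.inl rfl)
      exact congrArg Prod.snd h
    · have h := eq_of_mem_GCyc hL a1 a3 (Or.inr rfl) (Or.inr rfl)
      exact congrArg Prod.fst h
    · have h := eq_of_mem_GCyc hL a1 a3 (Or.inr rfl) (Or.inl rfl)
      exact absurd (congrArg Prod.fst h) hne
  have k2 : σ (σ x) = x := by rw [key, hu]
  rcases a1 with a1 | a1
  · rcases hA.2 _ a1 with h | h
    · exact h.2 k2
    · exact h.2 rfl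
  · rcases hA.2 _ a1 with h | h
    · exact h.2 rfl
    · exact h.2 k2

lemma swap_adm_GCyc {V N : Type} [DecidableEq V] {G : SimpleGraph V} {part : V → N}
    {D : Finset (V × V)} (hL : Links G part D) {σ : Equiv.Perm V} (hA : Adm part D σ) {x y : V}
    (hxy : part x = part y) (hx : part (σ x) = part x) (hy : part (σ y) = part y) :
    Adm part D (σ * Equiv.swap x y) := by
  have h1 : ∀ z, (σ * Equiv.swap x y) z = σ z ∨
      (part ((σ * Equiv.swap x y) z) = part z ∧ part (σ z) = part z) := by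
    intro z
    rw [Equiv.Perm.mul_apply]
    by_cases hzx : z = x
    · subst hzx
      rw [Equiv.swap_apply_left]
      exact Or.inr ⟨hy.trans hxy.symm, hx⟩
    by_cases hzy : z = y
    · subst hzy
      rw [Equiv.swap_apply_right]
      exact Or.inr ⟨hx.trans hxy, hy⟩
    · rw [Equiv.swap_apply_of_ne_of_ne hzx hzy]
      exact Or.inl rfl
  have h2 : ∀ a b, part a ≠ part b → σ a = b → σ b ≠ a →
      (σ * Equiv.swap x y) a = b ∧ (σ * Equiv.swap x y) b ≠ a := by
    intro a b hab h3 h4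
    constructor
    · rcases h1 a with h | h
      · rw [h, h3]
      · exact absurd (by rw [← h.2, h3]) hab
    · rcases h1 b with h | h
      · rw [h]; exact h4
      · intro h5
        exact hab (by rw [← h.1, h5])
  refine ⟨fun z => ?_, fun e he => ?_⟩
  · rcases h1 z with h | h
    · rw [h]; exact hA.1 z
    · exact Or.inl h.1
  · rcases hA.2 e he with h | h
    · exact Or.inl (h2 _ _ (hL.1 e he).2 h.1 h.2)
    · exact Or.inr (h2 _ _ (hL.1 e he).2.symm h.1 h.2)

lemma step_GCyc {V : Type} {τ : Equiv.Perm V} {x z : V} (h : τ.SameCycle x z) :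
    τ.SameCycle x (τ z) := by
  rwa [Equiv.Perm.sameCycle_apply_right]

lemma merge_GCyc {V : Type} [Fintype V] [DecidableEq V] (σ : Equiv.Perm V) {x y : V}
    (hxy : ¬ σ.SameCycle x y) : (σ * Equiv.swap x y).SameCycle x y ∧
      ∀ z, σ.SameCycle x z → (σ * Equiv.swap x y).SameCycle x z := by
  have hx : (σ * Equiv.swap x y).SameCycle x x := Equiv.Perm.SameCycle.refl _ _
  have hy : (σ * Equiv.swap x y).SameCycle x y := by
    by_contra hy
    have h1 : ∀ k : ℕ, (σ * Equiv.swap x y).SameCycle x ((σ ^ (k + 1)) y) := by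
      intro k
      induction k with
      | zero =>
        have h := step_GCyc hx
        rw [Equiv.Perm.mul_apply, Equiv.swap_apply_left] at h
        simpa using h
      | succ k ih =>
        have h := step_GCyc ih
        have n1 : (σ ^ (k + 1)) y ≠ x := fun h2 =>
          hxy (Equiv.Perm.SameCycle.symm ⟨((k + 1 : ℕ) : ℤ), by rw [zpow_natCast]; exact h2⟩)
        have n2 : (σ ^ (k + 1)) y ≠ y := fun h2 => hy (by rwa [h2] at ih)
        rw [Equiv.Perm.mul_apply, Equiv.swap_apply_of_ne_of_ne n1 n2] at h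
        rwa [pow_succ', Equiv.Perm.mul_apply]
    have h2 := h1 (orderOf σ - 1)
    rw [Nat.sub_add_cancel (orderOf_pos σ), pow_orderOf_eq_one] at h2
    exact hy h2
  refine ⟨hy, fun z hz => ?_⟩
  have h3 : ∀ w, (σ * Equiv.swap x y).SameCycle x w → (σ * Equiv.swap x y).SameCycle x (σ w) := by
    intro w hw
    have h4 : (σ * Equiv.swap x y).SameCycle x (Equiv.swap x y w) := by
      by_cases hwx : w = x
      · rw [hwx, Equiv.swap_apply_left]; exact hy
      by_cases hwy : w = y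
      · rw [hwy, Equiv.swap_apply_right]
      · rwa [Equiv.swap_apply_of_ne_of_ne hwx hwy]
    have h5 := step_GCyc h4
    rwa [Equiv.Perm.mul_apply, Equiv.swap_apply_self] at h5
  have h6 : ∀ k : ℕ, (σ * Equiv.swap x y).SameCycle x ((σ ^ k) x) := by
    intro k
    induction k with
    | zero => simpa using hx
    | succ k ih =>
      rw [pow_succ', Equiv.Perm.mul_apply]
      exact h3 _ ih
  obtain ⟨k, -, rfl⟩ := hz.exists_pow_eq'
  exact h6 k

lemma cross_GCyc {V N : Type} [Fintype V] [DecidableEq V] [Fintype N] [DecidableEq N]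
    {part : V → N} {D : Finset (V × V)} (hc : Conn (sr part) (tg part) D univ)
    {σ : Equiv.Perm V} (hA : Adm part D σ) {x0 w : V} (hw : ¬ σ.SameCycle x0 w) :
    ∃ x y, part x = part y ∧ σ.SameCycle x0 x ∧ ¬ σ.SameCycle x0 y := by
  by_contra hno
  have h1 : ∀ x y, part x = part y → σ.SameCycle x0 x → σ.SameCycle x0 y := by
    intro x y h2 h3
    by_contra h4
    exact hno ⟨x, y, h2, h3, h4⟩
  have h2 : ∀ z, part z ∈ (univ.filter fun a => σ.SameCycle x0 a).image part ↔
      σ.SameCycle x0 z := by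
    intro z
    constructor
    · intro h
      obtain ⟨a, ha, haz⟩ := mem_image.1 h
      exact h1 a z haz (mem_filter.1 ha).2
    · intro h
      exact mem_image.2 ⟨z, mem_filter.2 ⟨mem_univ _, h⟩, rfl⟩
  obtain ⟨e, he, h3⟩ := hc ((univ.filter fun a => σ.SameCycle x0 a).image part) (subset_univ _)
    ⟨part x0, (h2 x0).2 (Equiv.Perm.SameCycle.refl _ _)⟩
    (fun h => hw ((h2 w).1 (by rw [h]; exact mem_univ _)))
  have h4 : σ.SameCycle x0 e.1 ↔ σ.SameCycle x0 e.2 := by
    rcases hA.2 e he with h | h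
    · rw [← h.1, Equiv.Perm.sameCycle_apply_right]
    · rw [← h.1, Equiv.Perm.sameCycle_apply_right]
  simp only [sr, tg, h2] at h3
  rcases h3 with h3 | h3
  · exact h3.2 (h4.1 h3.1)
  · exact h3.1 (h4.2 h3.2)

lemma one_GCyc {V N : Type} [Fintype V] [DecidableEq V] [Fintype N] [DecidableEq N]
    {G : SimpleGraph V} {part : V → N} {D : Finset (V × V)} (hL : Links G part D)
    (hc : Conn (sr part) (tg part) D univ) {σ : Equiv.Perm V} (hA : Adm part D σ) (x0 : V) :
    ∃ τ : Equiv.Perm V, Adm part D τ ∧ ∀ w, τ.SameCycle x0 w := by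
  classical
  obtain ⟨τ, hτ, hmax⟩ := exists_max_image (univ.filter fun τ : Equiv.Perm V => Adm part D τ)
    (fun τ => (univ.filter fun a => τ.SameCycle x0 a).card) ⟨σ, mem_filter.2 ⟨mem_univ _, hA⟩⟩
  have hτA := (mem_filter.1 hτ).2
  refine ⟨τ, hτA, fun w => ?_⟩
  by_contra hw
  obtain ⟨x1, y1, hp, hx1, hy1⟩ := cross_GCyc hc hτA hw
  obtain ⟨x, hx2, hx3, hx4⟩ := good_GCyc hL hτA x1
  obtain ⟨y, hy2, hy3, hy4⟩ := good_GCyc hL hτA y1
  have hx : τ.SameCycle x0 x := hx1.trans hx2
  have hy : ¬ τ.SameCycle x0 y := fun h => hy1 (h.trans hy2.symm)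
  have hxy : ¬ τ.SameCycle x y := fun h => hy (hx.trans h)
  have hadm := swap_adm_GCyc hL hτA (hx3.trans (hp.trans hy3.symm)) hx4 hy4
  obtain ⟨m1, m2⟩ := merge_GCyc τ hxy
  have m3 : (τ * Equiv.swap x y).SameCycle x0 x := (m2 x0 hx.symm).symm
  have h1 := hmax _ (mem_filter.2 ⟨mem_univ _, hadm⟩)
  refine absurd h1 (not_le.2 (card_lt_card ⟨fun a ha => ?_, fun h => ?_⟩))
  · exact mem_filter.2 ⟨mem_univ _, m3.trans (m2 a (hx.symm.trans (mem_filter.1 ha).2))⟩
  · exact hy (mem_filter.1 (h (mem_filter.2 ⟨mem_univ _, m3.trans m1⟩))).2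

lemma ham_GCyc {V : Type} [Fintype V] [DecidableEq V] (G : SimpleGraph V) (τ : Equiv.Perm V)
    (x0 : V) (h : ∀ w, τ.SameCycle x0 w) (hadj : ∀ x, G.Adj x (τ x))
    (h2 : 2 ≤ Fintype.card V) : HamList G := by
  obtain ⟨m, hm⟩ : ∃ m, Fintype.card V = m + 2 := ⟨Fintype.card V - 2, by omega⟩
  have hcyc : τ.IsCycleOn ((univ : Finset V) : Set V) := by
    rw [coe_univ]
    exact ⟨Set.bijOn_univ.2 τ.bijective, fun x _ y _ => (h x).symm.trans (h y)⟩
  have hp : ∀ a b : ℕ, (τ ^ a) x0 = (τ ^ b) x0 ↔ a ≡ b [MOD (m + 2)] := by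
    intro a b
    rw [hcyc.pow_apply_eq_pow_apply (mem_univ x0), card_univ, hm]
  refine ⟨m + 2, fun i => (τ ^ (i : ℕ)) x0, ?_, fun i => ?_⟩
  · rw [Fintype.bijective_iff_injective_and_card]
    refine ⟨fun i j hij => ?_, by rw [Fintype.card_fin, hm]⟩
    exact Fin.ext (Nat.ModEq.eq_of_lt_of_lt ((hp _ _).1 hij) i.2 j.2)
  · have h3 : (τ ^ ((finRotate (m + 2) i : Fin (m + 2)) : ℕ)) x0 = τ ((τ ^ (i : ℕ)) x0) := by
      rw [← Equiv.Perm.mul_apply, ← pow_succ', hp, finRotate_apply, Fin.val_add, Fin.val_one]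
      exact Nat.mod_modEq _ _
    change G.Adj ((τ ^ (i : ℕ)) x0) ((τ ^ ((finRotate (m + 2) i : Fin (m + 2)) : ℕ)) x0)
    rw [h3]
    exact hadj _

theorem cyc_stmt : CycStmt := by
  intro V N _ _ _ _ G part D σ hC hL hc hA h2
  obtain ⟨x0⟩ : Nonempty V := Fintype.card_pos_iff.1 (by omega)
  obtain ⟨τ, hτ, hall⟩ := one_GCyc hL hc hA x0
  refine ham_GCyc G τ x0 hall (fun x => ?_) h2
  rcases hτ.1 x with h | h | h
  · refine hC x (τ x) h.symm fun hx => ?_
    obtain ⟨z, hz⟩ := Fintype.exists_ne_of_one_lt_card (by omega : 1 < Fintype.card V) x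
    exact hz (((hall x).symm.trans (hall z)).eq_of_left hx.symm).symm
  · exact (hL.1 _ h).1
  · exact (hL.1 _ h).1.symm

end Pool.Agent.MP_3fd310_co.Gen

end

section

set_option autoImplicit false

namespace Pool.Agent.MP_3fd310_co.Gen

open Finset

theorem eq_GExt {E : Type} {W : Submodule ℝ (E → ℝ)} {b x y : E → ℝ} (hx : IsVtx W b x)
    (hy : y ∈ Poly W b) (h : ∀ e, x e = 0 → y e = 0) : y = x := by
  have h1 : y - x ∈ W := by
    have := W.sub_mem hy.2 hx.1.2
    rwa [sub_sub_sub_cancel_right] at this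
  exact sub_eq_zero.1 (hx.2 _ h1 fun e he => by simp [he, h e he])

theorem eps_GExt {E : Type} [Fintype E] (x w : E → ℝ) (hx : ∀ e, 0 ≤ x e) :
    ∃ t : ℝ, 0 < t ∧ ∀ e, x e ≠ 0 → t * |w e| ≤ x e := by
  have h : ∀ᶠ t in nhds (0 : ℝ), ∀ e, x e ≠ 0 → t * |w e| ≤ x e := by
    refine Filter.eventually_all.2 fun e => ?_
    by_cases he : x e = 0
    · exact Filter.Eventually.of_forall fun t h => (h he).elim
    · have h0 : (0 : ℝ) * |w e| < x e := by
        rw [zero_mul]
        exact lt_of_le_of_ne (hx e) (Ne.symm he)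
      have hc : ContinuousAt (fun t : ℝ => t * |w e|) 0 := by fun_prop
      exact (hc.eventually_lt continuousAt_const h0).mono fun t ht _ => ht.le
  have h2 : ∀ᶠ t in nhdsWithin (0 : ℝ) (Set.Ioi 0), 0 < t ∧ ∀ e, x e ≠ 0 → t * |w e| ≤ x e :=
    Filter.Eventually.and self_mem_nhdsWithin (h.filter_mono nhdsWithin_le_nhds)
  exact h2.exists

theorem ext_stmt : ExtStmt := by
  intro E _ _ W b
  constructor
  · ext x
    rw [mem_extremePoints]
    constructor
    · rintro ⟨hx, h⟩
      refine ⟨hx, fun w hw h0 => ?_⟩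
      obtain ⟨t, ht, ht'⟩ := eps_GExt x w hx.1
      have key : ∀ s : ℝ, |s| = t → x + s • w ∈ Poly W b := fun s hs => by
        refine ⟨fun e => ?_, ?_⟩
        · by_cases he : x e = 0
          · simp [he, h0 e he]
          · have h1 := ht' e he
            have h2 : -(s * w e) ≤ t * |w e| := by
              rw [← hs, ← abs_mul]
              exact neg_le_abs _
            simp only [Pi.add_apply, Pi.smul_apply, smul_eq_mul]
            linarith
        · have := W.add_mem hx.2 (W.smul_mem s hw)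
          rwa [sub_add_eq_add_sub] at this
      have h1 := (h _ (key t (abs_of_pos ht)) _ (key (-t) (by rw [abs_neg, abs_of_pos ht]))
        ⟨1 / 2, 1 / 2, by norm_num, by norm_num, by norm_num, by
          ext e
          simp only [Pi.add_apply, Pi.smul_apply, smul_eq_mul]
          ring⟩).1
      have h2 : t • w = 0 := by simpa using h1
      exact (smul_eq_zero.1 h2).resolve_left ht.ne'
    · intro hx
      refine ⟨hx.1, fun y hy z hz ⟨p, q, hp, hq, _, h⟩ => ?_⟩
      have h0 : ∀ e, x e = 0 → y e = 0 ∧ z e = 0 := fun e he => by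
        have h1 := congrFun h e
        simp only [Pi.add_apply, Pi.smul_apply, smul_eq_mul, he] at h1
        have h2 := mul_nonneg hp.le (hy.1 e)
        have h3 := mul_nonneg hq.le (hz.1 e)
        exact ⟨(mul_eq_zero.1 (by linarith : p * y e = 0)).resolve_left hp.ne',
          (mul_eq_zero.1 (by linarith : q * z e = 0)).resolve_left hq.ne'⟩
      exact ⟨eq_GExt hx hy fun e he => (h0 e he).1, eq_GExt hx hz fun e he => (h0 e he).2⟩
  · refine Finite.of_injective (fun x : Vtx W b => {e | x.1 e = 0}) fun x y h => ?_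
    refine Subtype.ext (eq_GExt y.2 x.2.1 fun e he => ?_)
    have h1 : e ∈ {e | y.1 e = 0} := he
    have h2 : {e | x.1 e = 0} = {e | y.1 e = 0} := h
    rw [← h2] at h1
    exact h1

theorem zero_stmt : ZeroStmt := by
  intro E _ _ W b hs x hx Z hZ
  let r : W →ₗ[ℝ] (Z → ℝ) :=
    { toFun := fun w e => w.1 e.1
      map_add' := fun _ _ => rfl
      map_smul' := fun _ _ => rfl }
  have hi : Function.Injective r := by
    rw [← LinearMap.ker_eq_bot, LinearMap.ker_eq_bot']
    intro w hw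
    exact Subtype.ext (hx.2 w.1 w.2 fun e he => congrFun hw ⟨e, (hZ e).2 he⟩)
  have hsj : Function.Surjective r := by
    rw [← LinearMap.range_eq_top, eq_top_iff, ← (Pi.basisFun ℝ Z).span_eq, Submodule.span_le]
    rintro _ ⟨f, rfl⟩
    obtain ⟨z, hz, h1, h2⟩ := hs x hx f.1 ((hZ f.1).1 f.2)
    refine ⟨⟨z, hz⟩, funext fun e => ?_⟩
    rw [Pi.basisFun_apply]
    by_cases he : e = f
    · subst he
      rw [Pi.single_eq_same]
      exact h1
    · rw [Pi.single_eq_of_ne he]
      exact h2 e.1 ((hZ e.1).1 e.2) fun h => he (Subtype.ext h)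
  rw [(LinearEquiv.ofBijective r ⟨hi, hsj⟩).finrank_eq, Module.finrank_fintype_fun_eq_card,
    Fintype.card_coe]

end Pool.Agent.MP_3fd310_co.Gen

end

section

set_option autoImplicit false

namespace Pool.Agent.MP_3fd310_co.Gen

open Finset

theorem sub_mem_GSeg {E : Type} {W : Submodule ℝ (E → ℝ)} {b x y : E → ℝ} (hx : x ∈ Poly W b)
    (hy : y ∈ Poly W b) : x - y ∈ W := by
  have := W.sub_mem hx.2 hy.2
  rwa [sub_sub_sub_cancel_right] at this

theorem dir_GSeg {E : Type} {W : Submodule ℝ (E → ℝ)} {b x z w : E → ℝ} {f : E}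
    (hx : IsVtx W b x) (hz : z ∈ W) (h1 : z f = 1) (h0 : ∀ e, x e = 0 → e ≠ f → z e = 0)
    (hw : w ∈ W) (hw0 : ∀ e, x e = 0 → e ≠ f → w e = 0) : w = w f • z := by
  refine sub_eq_zero.1 (hx.2 _ (W.sub_mem hw (W.smul_mem _ hz)) fun e he => ?_)
  by_cases h : e = f
  · simp [h, h1]
  · simp [h0 e he h, hw0 e he h]

theorem convex_GSeg {E : Type} (W : Submodule ℝ (E → ℝ)) (b : E → ℝ) : Convex ℝ (Poly W b) := by
  intro x hx y hy s t hs ht hst
  refine ⟨fun e => add_nonneg (mul_nonneg hs (hx.1 e)) (mul_nonneg ht (hy.1 e)), ?_⟩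
  have : s • x + t • y - b = s • (x - b) + t • (y - b) := by
    rw [smul_sub, smul_sub, sub_add_sub_comm, ← add_smul, hst, one_smul]
  rw [this]
  exact W.add_mem (W.smul_mem _ hx.2) (W.smul_mem _ hy.2)

theorem supp_GSeg (hZ : ZeroStmt) {E : Type} [Fintype E] [DecidableEq E]
    {W : Submodule ℝ (E → ℝ)} {b x : E → ℝ} (hS : Simple W b) (hx : IsVtx W b x) {S : Finset E}
    (h : ∀ e, e ∈ S ↔ x e ≠ 0) : S.card + Module.finrank ℝ W = Fintype.card E := by
  rw [← hZ E W b hS x hx Sᶜ fun e => by rw [mem_compl, h, not_not], card_add_card_compl]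

theorem one_GSeg (hZ : ZeroStmt) {E : Type} [Fintype E] [DecidableEq E]
    {W : Submodule ℝ (E → ℝ)} {b x : E → ℝ} (hS : Simple W b) (hx : IsVtx W b x) {φ : Finset E}
    (hc : φ.card + 1 + Module.finrank ℝ W = Fintype.card E) (hφ : ∀ e ∈ φ, x e ≠ 0) :
    ∃ e, e ∉ φ ∧ ∀ g, x g ≠ 0 ↔ g = e ∨ g ∈ φ := by
  classical
  have h := supp_GSeg hZ hS hx (S := univ.filter fun e => x e ≠ 0) fun e => by simp
  obtain ⟨e, he, h'⟩ := (exists_eq_insert_iff (s := φ) (t := univ.filter fun e => x e ≠ 0)).2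
    ⟨fun e he => by simpa using hφ e he, by omega⟩
  refine ⟨e, he, fun g => ?_⟩
  rw [← mem_insert, h']
  simp

theorem seg_stmt (hZ : ZeroStmt) : SegStmt := by
  intro E _ _ W b hS x y ⟨hne, φ, hc, hφ⟩
  obtain ⟨e, he, hx⟩ := one_GSeg hZ hS x.2 hc fun e he => (hφ e he).1
  obtain ⟨f, hf, hy⟩ := one_GSeg hZ hS y.2 hc fun e he => (hφ e he).2
  have hef : e ≠ f := by
    rintro rfl
    refine hne (Subtype.ext (sub_eq_zero.1 (x.2.2 _ (sub_mem_GSeg x.2.1 y.2.1) fun g hg => ?_)))
    have : y.1 g = 0 := by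
      by_contra h
      exact (hx g).2 ((hy g).1 h) hg
    simp [hg, this]
  have xf : x.1 f = 0 := by
    by_contra h
    exact ((hx f).1 h).elim (fun h => hef h.symm) hf
  have ye : y.1 e = 0 := by
    by_contra h
    exact ((hy e).1 h).elim hef he
  have xe : 0 < x.1 e := (x.2.1.1 e).lt_of_ne' ((hx e).2 (Or.inl rfl))
  have yf : 0 < y.1 f := (y.2.1.1 f).lt_of_ne' ((hy f).2 (Or.inl rfl))
  obtain ⟨z, hz, h1, h0⟩ := hS x.1 x.2 f xf
  have y0 : ∀ g, x.1 g = 0 → g ≠ f → y.1 g = 0 := fun g hg hgf => by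
    by_contra h
    exact ((hy g).1 h).elim hgf fun h => (hφ g h).1 hg
  have key : ∀ w ∈ Poly W b, (∀ g, x.1 g = 0 → g ≠ f → w g = 0) → w - x.1 = w f • z := by
    intro w hw h
    have := dir_GSeg x.2 hz h1 h0 (sub_mem_GSeg hw x.2.1) fun g hg hgf => by
      simp [hg, h g hg hgf]
    simpa [xf] using this
  have ky := key y.1 y.2.1 y0
  refine ⟨(convex_GSeg W b).segment_subset x.2.1 y.2.1, fun a ha a' ha' w hw hwa => ?_⟩
  obtain ⟨s, t, -, -, -, rfl⟩ := hw
  obtain ⟨s', t', hs', ht', -, hwa⟩ := hwa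
  have ka := key a ha fun g hg hgf => by
    have h := congrFun hwa g
    simp only [Pi.add_apply, Pi.smul_apply, smul_eq_mul, hg, y0 g hg hgf, mul_zero,
      add_zero] at h
    have h2 := mul_nonneg ht'.le (ha'.1 g)
    have h3 := mul_nonneg hs'.le (ha.1 g)
    exact (mul_eq_zero.1 (by linarith : s' * a g = 0)).resolve_left hs'.ne'
  have ea : a = (1 - a f / y.1 f) • x.1 + (a f / y.1 f) • y.1 := by
    rw [sub_smul, one_smul, sub_add, ← smul_sub, ← neg_sub y.1, smul_neg, sub_neg_eq_add, ky,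
      smul_smul, div_mul_cancel₀ _ yf.ne', ← ka, add_sub_cancel]
  refine ⟨1 - a f / y.1 f, a f / y.1 f, ?_, div_nonneg (ha.1 f) yf.le, by ring, ea.symm⟩
  have h := ha.1 e
  rw [congrFun ea e] at h
  simp only [Pi.add_apply, Pi.smul_apply, smul_eq_mul, ye, mul_zero, add_zero] at h
  exact nonneg_of_mul_nonneg_left h xe

theorem pivot_stmt (hZ : ZeroStmt) : PivotStmt := by
  intro E _ _ W b hS hB x f z xf hz h1 h0
  classical
  have hne : (univ.filter fun e => z e < 0).Nonempty := by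
    by_contra h
    have := hB z hz fun e => not_lt.1 fun he => h ⟨e, by simpa using he⟩
    simp [this] at h1
  obtain ⟨e, he, hmin⟩ := exists_min_image _ (fun e => x.1 e / -z e) hne
  simp only [mem_filter, mem_univ, true_and] at he hmin
  have hef : e ≠ f := by
    rintro rfl
    linarith
  have xe : 0 < x.1 e := (x.2.1.1 e).lt_of_ne' fun h => he.ne (h0 e h hef)
  obtain ⟨τ, hτ⟩ : ∃ τ, τ = x.1 e / -z e := ⟨_, rfl⟩
  rw [← hτ] at hmin
  have τ0 : 0 < τ := hτ ▸ div_pos xe (neg_pos.2 he)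
  have ye : x.1 e + τ * z e = 0 := by
    rw [hτ, div_neg, neg_mul, div_mul_cancel₀ _ he.ne, add_neg_cancel]
  have y0 : ∀ g, x.1 g = 0 → g ≠ f → x.1 g + τ * z g = 0 := fun g hg hgf => by
    rw [hg, h0 g hg hgf, mul_zero, add_zero]
  have hy : IsVtx W b (x.1 + τ • z) := by
    refine ⟨⟨fun g => ?_, ?_⟩, fun w hw hw0 => ?_⟩
    · change 0 ≤ x.1 g + τ * z g
      rcases lt_or_ge (z g) 0 with h | h
      · have := (le_div_iff₀ (neg_pos.2 h)).1 (hmin g h)
        linarith
      · exact add_nonneg (x.2.1.1 g) (mul_nonneg τ0.le h)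
    · rw [add_sub_right_comm]
      exact W.add_mem x.2.1.2 (W.smul_mem _ hz)
    · have h := dir_GSeg x.2 hz h1 h0 hw fun g hg hgf => hw0 g (y0 g hg hgf)
      have h2 := hw0 e ye
      rw [congrFun h e] at h2
      rw [h, (mul_eq_zero.1 h2).resolve_right he.ne, zero_smul]
  refine ⟨⟨_, hy⟩, ⟨fun h => ?_, (univ.filter fun g => x.1 g ≠ 0).erase e, ?_, ?_⟩, τ, τ0, rfl⟩
  · have := congrFun (congrArg Subtype.val h) e
    exact xe.ne' (this.trans ye)
  · rw [card_erase_add_one (by simpa using xe.ne')]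
    exact supp_GSeg hZ hS x.2 fun g => by simp
  · have c1 := hZ E W b hS x.1 x.2 (univ.filter fun g => x.1 g = 0) fun g => by simp
    have c2 := hZ E W b hS _ hy (univ.filter fun g => x.1 g + τ * z g = 0) fun g => by simp
    have c3 : insert e ((univ.filter fun g => x.1 g = 0).erase f) =
        univ.filter fun g => x.1 g + τ * z g = 0 := by
      refine eq_of_subset_of_card_le (fun g hg => ?_) ?_
      · simp only [mem_insert, mem_erase, mem_filter, mem_univ, true_and] at hg ⊢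
        rcases hg with rfl | hg
        · exact ye
        · exact y0 g hg.2 hg.1
      · rw [card_insert_of_notMem (by simp [xe.ne']), card_erase_add_one (by simpa using xf), c1,
          c2]
    intro g hg
    simp only [mem_erase, mem_filter, mem_univ, true_and] at hg
    refine ⟨hg.2, fun h => ?_⟩
    have : g ∈ insert e ((univ.filter fun g => x.1 g = 0).erase f) := by
      rw [c3]
      exact mem_filter.2 ⟨mem_univ _, h⟩
    simp only [mem_insert, mem_erase, mem_filter, mem_univ, true_and] at this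
    exact this.elim hg.1 fun h => hg.2 h.2

end Pool.Agent.MP_3fd310_co.Gen

end

section

set_option autoImplicit false

namespace Pool.Agent.MP_3fd310_co.Gen

open Finset

theorem piv_GCone (hP : PivotStmt) {E : Type} [Fintype E] [DecidableEq E]
    {W : Submodule ℝ (E → ℝ)} {b : E → ℝ} (hS : Simple W b) (hB : Bdd W) (x : Vtx W b) :
    ∃ (z : E → E → ℝ) (y : E → Vtx W b) (τ : E → ℝ), ∀ f, x.1 f = 0 → z f ∈ W ∧ z f f = 1 ∧
      (∀ e, x.1 e = 0 → e ≠ f → z f e = 0) ∧ (PG W b).Adj x (y f) ∧ 0 < τ f ∧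
        (y f).1 = x.1 + τ f • z f := by
  have h : ∀ f, ∃ (z : E → ℝ) (y : Vtx W b) (τ : ℝ), x.1 f = 0 → z ∈ W ∧ z f = 1 ∧
      (∀ e, x.1 e = 0 → e ≠ f → z e = 0) ∧ (PG W b).Adj x y ∧ 0 < τ ∧ y.1 = x.1 + τ • z := by
    intro f
    by_cases hf : x.1 f = 0
    · obtain ⟨z, hz, h1, h2⟩ := hS x.1 x.2 f hf
      obtain ⟨y, hy, τ, hτ, e⟩ := hP E W b hS hB x f z hf hz h1 h2
      exact ⟨z, y, τ, fun _ => ⟨hz, h1, h2, hy, hτ, e⟩⟩
    · exact ⟨0, x, 0, fun h => absurd h hf⟩
  choose z y τ h using h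
  exact ⟨z, y, τ, h⟩

theorem cone_stmt (hP : PivotStmt) : ConeStmt := by
  intro E _ _ W b hS hB x w hw
  classical
  obtain ⟨z, y, τ, h⟩ := piv_GCone hP hS hB x
  refine ⟨y, fun f => if x.1 f = 0 then w f / τ f else 0, fun f hf => ?_, ?_, fun h0 f => ?_⟩
  · by_cases h0 : x.1 f = 0
    · exact (h f h0).2.2.2.1
    · simp [h0] at hf
  · have e : ∀ f, (if x.1 f = 0 then w f / τ f else 0) • ((y f).1 - x.1) =
        if x.1 f = 0 then w f • z f else 0 := fun f => by
      split_ifs with h0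
      · obtain ⟨-, -, -, -, h1, h2⟩ := h f h0
        rw [h2, add_sub_cancel_left, smul_smul, div_mul_cancel₀ _ h1.ne']
      · rw [zero_smul]
    simp only [e]
    refine sub_eq_zero.1 (x.2.2 _ (W.sub_mem hw (W.sum_mem fun f _ => ?_)) fun g hg => ?_)
    · split_ifs with h0
      · exact W.smul_mem _ (h f h0).1
      · exact W.zero_mem
    · rw [Pi.sub_apply, Finset.sum_apply, Finset.sum_eq_single g]
      · rw [if_pos hg, Pi.smul_apply, (h g hg).2.1, smul_eq_mul, mul_one, sub_self]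
      · intro f _ hne
        split_ifs with h0
        · rw [Pi.smul_apply, (h f h0).2.2.1 g hg hne.symm, smul_zero]
        · rfl
      · simp
  · dsimp only
    split_ifs with h1
    · exact div_nonneg (h0 f h1) (h f h1).2.2.2.2.1.le
    · exact le_rfl

theorem deg_stmt (hZ : ZeroStmt) (hP : PivotStmt) : DegStmt := by
  intro E _ _ W b hS hB
  classical
  have hz : ∀ x : Vtx W b, (univ.filter fun e => x.1 e = 0).card = Module.finrank ℝ W :=
    fun x => hZ E W b hS x.1 x.2 _ fun e => by simp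
  refine ⟨fun x => ?_, fun r hr hE x => ?_⟩
  · obtain ⟨z, y, τ, h⟩ := piv_GCone hP hS hB x
    refine ⟨(univ.filter fun e => x.1 e = 0).image y, ?_, fun v hv => ?_⟩
    · rw [Finset.card_image_of_injOn, hz x]
      intro f hf g hg e
      have hf0 : x.1 f = 0 := by simpa using hf
      have hg0 : x.1 g = 0 := by simpa using hg
      by_contra hne
      obtain ⟨-, a1, -, -, a2, a3⟩ := h f hf0
      obtain ⟨-, -, b1, -, -, b3⟩ := h g hg0
      have c1 := congrFun a3 f
      have c2 := congrFun b3 f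
      rw [Pi.add_apply, Pi.smul_apply, a1, hf0] at c1
      rw [Pi.add_apply, Pi.smul_apply, b1 f hf0 hne, hf0, ← e, c1] at c2
      simp only [smul_eq_mul, mul_one, zero_add, mul_zero] at c2
      exact a2.ne' c2
    · obtain ⟨f, hf, rfl⟩ := Finset.mem_image.1 hv
      exact (h f (by simpa using hf)).2.2.2.1
  · obtain ⟨S, hS'⟩ : ∃ S : Finset E, S = univ.filter fun e => ¬ x.1 e = 0 := ⟨_, rfl⟩
    have hc : Module.finrank ℝ W + S.card = Fintype.card E := by
      rw [← hz x, hS', Finset.card_filter_add_card_filter_not, Finset.card_univ]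
    obtain ⟨i⟩ : Nonempty (S ↪ Fin r) := Function.Embedding.nonempty_of_card_le (by
      rw [Fintype.card_coe, Fintype.card_fin]
      omega)
    have key : ∀ y : Vtx W b, ∃ c : Fin r, (PG W b).Adj x y →
        ∃ e : S, c = i e ∧ ∀ g ∈ S.erase e, y.1 g ≠ 0 := by
      intro y
      by_cases hy : (PG W b).Adj x y
      · obtain ⟨φ, h1, h2⟩ := hy.2
        have hφ : φ ⊆ S := fun g hg => by
          rw [hS']
          exact Finset.mem_filter.2 ⟨mem_univ _, (h2 g hg).1⟩
        obtain ⟨e, he, he'⟩ := Finset.exists_mem_notMem_of_card_lt_card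
          (show φ.card < S.card by omega)
        have e1 : φ = S.erase e := Finset.eq_of_subset_of_card_le
          (Finset.subset_erase.2 ⟨hφ, he'⟩) (by rw [Finset.card_erase_of_mem he]; omega)
        exact ⟨i ⟨e, he⟩, fun _ => ⟨⟨e, he⟩, rfl, fun g hg => (h2 g (e1 ▸ hg)).2⟩⟩
      · exact ⟨⟨0, hr⟩, fun h => absurd h hy⟩
    choose c hc' using key
    refine ⟨c, fun u v hu hv e hne => ?_⟩
    obtain ⟨e1, a1, a2⟩ := hc' u hu
    obtain ⟨e2, b1, b2⟩ := hc' v hv
    obtain rfl : e1 = e2 := i.injective (by rw [← a1, ← b1, e])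
    refine ⟨hne, S.erase e1, ?_, fun g hg => ⟨a2 g hg, b2 g hg⟩⟩
    rw [Finset.card_erase_add_one e1.2]
    omega

end Pool.Agent.MP_3fd310_co.Gen

end

section

set_option autoImplicit false

namespace Pool.Agent.MP_3fd310_co.Gen

open Finset

theorem pos_term_GBal {E : Type} [Fintype E] {c d : E → ℝ} (hc : ∀ f, 0 ≤ c f)
    (h : 0 < ∑ f, c f * d f) : ∃ f, c f ≠ 0 ∧ 0 < d f := by
  by_contra hne
  push Not at hne
  refine h.not_ge (sum_nonpos fun f _ => ?_)
  by_cases h0 : c f = 0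
  · simp [h0]
  · exact mul_nonpos_of_nonneg_of_nonpos (hc f) (hne f h0)

theorem cone_GBal (hC : ConeStmt) {E : Type} [Fintype E] [DecidableEq E]
    {W : Submodule ℝ (E → ℝ)} {b : E → ℝ} (hS : Simple W b) (hB : Bdd W) (x y : Vtx W b) :
    ∃ (n : E → Vtx W b) (c : E → ℝ), (∀ f, c f ≠ 0 → (PG W b).Adj x (n f)) ∧ (∀ f, 0 ≤ c f) ∧
      ∀ g : (E → ℝ) →ₗ[ℝ] ℝ, g y.1 - g x.1 = ∑ f, c f * (g (n f).1 - g x.1) := by
  obtain ⟨n, c, h1, h2, h3⟩ := hC E W b hS hB x (y.1 - x.1)
    (by simpa using W.sub_mem y.2.1.2 x.2.1.2)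
  refine ⟨n, c, h1, h3 fun e he => by simpa [he] using y.2.1.1 e, fun g => ?_⟩
  rw [← map_sub, h2]
  simp

theorem key_GBal (hC : ConeStmt) {E : Type} [Fintype E] [DecidableEq E]
    {W : Submodule ℝ (E → ℝ)} {b : E → ℝ} (hS : Simple W b) (hB : Bdd W)
    {Z B : Finset (Vtx W b)} (g : (E → ℝ) →ₗ[ℝ] ℝ) {c : ℝ} (hZ : ∀ z ∈ Z, g z.1 = c)
    (hcl : ∀ a ∈ B, ∀ y, y ∉ Z → (PG W b).Adj a y → y ∈ B) {v y : Vtx W b} (hv : v ∈ B)
    (hc : c ≤ g v.1) (hy : ∀ u : Vtx W b, g u.1 ≤ g y.1) (hy' : c < g y.1) : y ∈ B := by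
  classical
  obtain ⟨a, ha, hmax⟩ := B.exists_max_image (fun u => g u.1) ⟨v, hv⟩
  have h1 : g a.1 = g y.1 := by
    refine (hy a).eq_of_not_lt fun hlt => ?_
    obtain ⟨n, k, h1, h2, h3⟩ := cone_GBal hC hS hB a y
    obtain ⟨f, h4, h5⟩ := pos_term_GBal h2 (h3 g ▸ sub_pos.2 hlt)
    have := hmax _ (hcl a ha (n f) (fun hz => by linarith [hZ _ hz, hmax v hv]) (h1 f h4))
    linarith
  let h : (E → ℝ) →ₗ[ℝ] ℝ := -∑ e with y.1 e = 0, LinearMap.proj e
  have hh : ∀ u, h u = -∑ e with y.1 e = 0, u e := fun u => by simp [h]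
  obtain ⟨a', ha', hmax'⟩ := (B.filter fun u => g u.1 = g y.1).exists_max_image (fun u => h u.1)
    ⟨a, mem_filter.2 ⟨ha, h1⟩⟩
  rw [mem_filter] at ha'
  by_contra hne
  have h2 : h a'.1 < h y.1 := by
    rw [hh, hh, neg_lt_neg_iff, sum_eq_zero fun e he => (mem_filter.1 he).2]
    refine (sum_nonneg fun e _ => a'.2.1.1 e).lt_of_ne' fun h0 => hne ?_
    have := y.2.2 (a'.1 - y.1) (by simpa using W.sub_mem a'.2.1.2 y.2.1.2) fun e he => by
      simpa [he] using (sum_eq_zero_iff_of_nonneg fun e _ => a'.2.1.1 e).1 h0 e (by simpa using he)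
    exact (Subtype.ext (sub_eq_zero.1 this) : a' = y) ▸ ha'.1
  obtain ⟨n, k, h3, h4, h5⟩ := cone_GBal hC hS hB a' y
  obtain ⟨f, h6, h7⟩ := pos_term_GBal h4 (h5 h ▸ sub_pos.2 h2)
  have h8 := (sum_eq_zero_iff_of_nonpos fun f _ => mul_nonpos_of_nonneg_of_nonpos (h4 f)
    (sub_nonpos.2 (ha'.2 ▸ hy (n f)))).1 (by rw [← h5 g, ha'.2, sub_self]) f (mem_univ f)
  have h9 : g (n f).1 = g y.1 := by
    rw [← ha'.2]; exact sub_eq_zero.1 ((mul_eq_zero.1 h8).resolve_left h6)
  have := hmax' _ (mem_filter.2 ⟨hcl a' ha'.1 (n f) (fun hz => by linarith [hZ _ hz]) (h3 f h6), h9⟩)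
  linarith

theorem bal_stmt (hC : ConeStmt) : BalStmt := by
  classical
  intro E _ _ W b hS hB hfin Z A hZ ⟨v, hv⟩ hd ⟨w, hw, hw'⟩
  have := Fintype.ofFinite (Vtx W b)
  by_contra hne
  push Not at hne
  have c1 : ∀ a ∈ A, ∀ y, y ∉ Z → (PG W b).Adj a y → y ∈ A := fun a ha y hy h =>
    by_contra fun h' => hne a ha y h' hy h
  have c2 : ∀ a ∈ (A ∪ Z)ᶜ, ∀ y, y ∉ Z → (PG W b).Adj a y → y ∈ (A ∪ Z)ᶜ := fun a ha y hy h => by
    simp only [mem_compl, mem_union, not_or] at ha ⊢
    exact ⟨fun h' => hne y h' a ha.1 ha.2 h.symm, hy⟩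
  have hwB : w ∈ (A ∪ Z)ᶜ := by simp [hw, hw']
  have main : ∀ g : (E → ℝ) →ₗ[ℝ] ℝ, (∀ z ∈ Z, g z.1 = g v.1) → g v.1 ≤ g w.1 →
      ∀ u : Vtx W b, g u.1 ≤ g v.1 := fun g h1 h2 u => by
    by_contra h3
    obtain ⟨y, -, hy⟩ := univ.exists_max_image (fun u : Vtx W b => g u.1) ⟨v, mem_univ v⟩
    have h4 := (not_le.1 h3).trans_le (hy u (mem_univ u))
    have h5 := key_GBal hC hS hB g h1 c2 hwB h2 (fun u => hy u (mem_univ u)) h4
    simp [key_GBal hC hS hB g h1 c1 hv le_rfl (fun u => hy u (mem_univ u)) h4] at h5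
  let S := Submodule.span ℝ ((Z.image fun z => z.1 - v.1 : Finset (E → ℝ)) : Set (E → ℝ))
  obtain ⟨x, hx, hx'⟩ : ∃ x ∈ W, x ∉ S := by
    by_contra h
    push Not at h
    exact (((Submodule.finrank_mono h).trans (finrank_span_finset_le_card _)).trans
      card_image_le).not_gt hZ
  obtain ⟨g, hg, hg'⟩ := S.exists_dual_map_eq_bot_of_notMem hx' inferInstance
  have h1 : ∀ z ∈ Z, g z.1 = g v.1 := fun z hz => by
    rw [← sub_eq_zero, ← map_sub]
    exact (Submodule.eq_bot_iff _).1 hg' _ ⟨_, Submodule.subset_span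
      (mem_coe.2 (mem_image_of_mem _ hz)), rfl⟩
  have h1' : ∀ z ∈ Z, (-g) z.1 = (-g) v.1 := fun z hz => by simp [h1 z hz]
  have h2 : ∃ u : Vtx W b, g u.1 ≠ g v.1 := by
    by_contra h
    push Not at h
    obtain ⟨n, c, -, h2, -⟩ := hC E W b hS hB v x hx
    apply hg
    rw [h2]
    simp [h]
  obtain ⟨u, hu⟩ := h2
  rcases lt_trichotomy (g v.1) (g w.1) with h | h | h
  · exact h.not_ge (main g h1 h.le w)
  · exact hu (le_antisymm (main g h1 h.le u) (by simpa using main (-g) h1' (by simp [h]) u))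
  · exact h.not_ge (by simpa using main (-g) h1' (by simpa using h.le) w)

end Pool.Agent.MP_3fd310_co.Gen

end

section

/-! Nondegenerate transportation polytopes are simple polytopes in standard form. -/

set_option autoImplicit false

namespace Pool.Agent.MP_3fd310_co.Gen

open Finset

/-- Row sums and column sums. -/
def marg_GTrans (p q : ℕ) : (Fin p × Fin q → ℝ) →ₗ[ℝ] (Fin p → ℝ) × (Fin q → ℝ) where
  toFun x := (fun i => ∑ j, x (i, j), fun j => ∑ i, x (i, j))
  map_add' x y := by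
    ext <;> simp [sum_add_distrib]
  map_smul' c x := by
    ext <;> simp [mul_sum]

theorem marg_single_GTrans {p q : ℕ} (i : Fin p) (j : Fin q) :
    marg_GTrans p q (Pi.single (i, j) 1) = (Pi.single i 1, Pi.single j 1) := by
  ext k
  · by_cases h : k = i <;> simp [marg_GTrans, Pi.single_apply, h, filter_eq']
  · by_cases h : k = j <;> simp [marg_GTrans, Pi.single_apply, h, filter_eq']

/-- Functions vanishing where `x` vanishes. -/
def supp_GTrans {E : Type} (x : E → ℝ) : Submodule ℝ (E → ℝ) where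
  carrier := {y | ∀ e, x e = 0 → y e = 0}
  add_mem' := fun {a b} ha hb e he => by simp [ha e he, hb e he]
  zero_mem' := fun _ _ => rfl
  smul_mem' := fun c a ha e he => by simp [ha e he]

theorem release_GTrans {p q : ℕ} {u : Fin p → ℝ} {v : Fin q → ℝ} (hu : ∀ i, 0 < u i)
    (hv : ∀ j, 0 < v j) (huv : (∑ i, u i) = ∑ j, v j)
    (hnd : ∀ (I : Finset (Fin p)) (J : Finset (Fin q)), I.Nonempty → I ≠ univ → J.Nonempty →
      J ≠ univ → (∑ i ∈ I, u i) ≠ ∑ j ∈ J, v j)
    (x : Fin p × Fin q → ℝ) (hr : ∀ i, (∑ j, x (i, j)) = u i) (hc : ∀ j, (∑ i, x (i, j)) = v j)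
    (i0 : Fin p) (j0 : Fin q) :
    ∃ y : Fin p × Fin q → ℝ, (∀ e, x e = 0 → y e = 0) ∧
      marg_GTrans p q y = marg_GTrans p q (Pi.single (i0, j0) 1) := by
  classical
  let S := (supp_GTrans x).map (marg_GTrans p q)
  have hS : ∀ i j, x (i, j) ≠ 0 →
      ((Pi.single i 1, Pi.single j 1) : (Fin p → ℝ) × (Fin q → ℝ)) ∈ S := by
    intro i j h
    refine ⟨Pi.single (i, j) 1, fun e he => ?_, marg_single_GTrans i j⟩
    have : e ≠ (i, j) := fun h' => h (h' ▸ he)
    simp [this]
  let I : Finset (Fin p) := univ.filter fun i =>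
    ((Pi.single i 1 - Pi.single i0 1, 0) : (Fin p → ℝ) × (Fin q → ℝ)) ∈ S
  let J : Finset (Fin q) := univ.filter fun j =>
    ((Pi.single i0 1, Pi.single j 1) : (Fin p → ℝ) × (Fin q → ℝ)) ∈ S
  have hIJ : ∀ i j, x (i, j) ≠ 0 → (i ∈ I ↔ j ∈ J) := by
    intro i j h
    simp only [I, J, mem_filter, mem_univ, true_and]
    constructor
    · intro h1
      simpa using S.sub_mem (hS i j h) h1
    · intro h1
      simpa using S.sub_mem (hS i j h) h1
  have hsum : ∑ i ∈ I, u i = ∑ j ∈ J, v j := by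
    have h1 : ∑ i ∈ I, u i = ∑ i, ∑ j, if i ∈ I then x (i, j) else 0 := by
      rw [← Finset.sum_ite_mem_eq I u]
      refine sum_congr rfl fun i _ => ?_
      split_ifs
      · exact (hr i).symm
      · simp
    have h2 : ∑ j ∈ J, v j = ∑ j, ∑ i, if j ∈ J then x (i, j) else 0 := by
      rw [← Finset.sum_ite_mem_eq J v]
      refine sum_congr rfl fun j _ => ?_
      split_ifs
      · exact (hc j).symm
      · simp
    rw [h1, h2, sum_comm]
    refine sum_congr rfl fun j _ => sum_congr rfl fun i _ => ?_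
    by_cases h : x (i, j) = 0
    · simp [h]
    · simp only [hIJ i j h]
  have hi0 : i0 ∈ I := by
    simp only [I, mem_filter, mem_univ, true_and, sub_self]
    exact S.zero_mem
  have hj0 : j0 ∈ J := by
    by_contra hj0
    have hJ : J ≠ univ := fun h => hj0 (h ▸ mem_univ j0)
    have hpos : 0 < ∑ i ∈ I, u i := sum_pos (fun i _ => hu i) ⟨i0, hi0⟩
    have hne : J.Nonempty := by
      rw [nonempty_iff_ne_empty]
      intro h
      rw [hsum, h, sum_empty] at hpos
      exact lt_irrefl _ hpos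
    have hI : I ≠ univ := by
      intro h
      have := sum_lt_sum_of_subset (subset_univ J) (mem_univ j0) hj0 (hv j0)
        fun j _ _ => (hv j).le
      rw [← hsum, h, huv] at this
      exact lt_irrefl _ this
    exact hnd I J ⟨i0, hi0⟩ hI hne hJ hsum
  obtain ⟨y, hy, he⟩ := (mem_filter.1 hj0).2
  exact ⟨y, hy, he.trans (marg_single_GTrans i0 j0).symm⟩

theorem trans_stmt : TransStmt := by
  classical
  intro p q u v hp hu hv huv hnd
  have hT : 0 < ∑ i, u i := sum_pos (fun i _ => hu i) ⟨⟨0, hp⟩, mem_univ _⟩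
  let b : Fin p × Fin q → ℝ := fun e => u e.1 * v e.2 / ∑ i, u i
  have hb : marg_GTrans p q b = (u, v) := by
    ext k
    · change ∑ j, u k * v j / ∑ i, u i = u k
      rw [← sum_div, ← mul_sum, ← huv, mul_div_cancel_right₀ _ hT.ne']
    · change ∑ i, u i * v k / ∑ i, u i = v k
      rw [← sum_div, ← sum_mul, mul_div_cancel_left₀ _ hT.ne']
  have hmem : ∀ x : Fin p × Fin q → ℝ, x ∈ Poly (LinearMap.ker (marg_GTrans p q)) b ↔
      (∀ i j, 0 ≤ x (i, j)) ∧ (∀ i, (∑ j, x (i, j)) = u i) ∧ ∀ j, (∑ i, x (i, j)) = v j := by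
    intro x
    simp only [Poly, Set.mem_ofPred_eq, LinearMap.mem_ker, map_sub, sub_eq_zero, hb, Prod.forall]
    refine and_congr_right fun _ => ⟨fun h => ?_, fun h => ?_⟩
    · exact ⟨fun i => congrFun (congrArg Prod.fst h) i, fun j => congrFun (congrArg Prod.snd h) j⟩
    · exact Prod.ext (funext h.1) (funext h.2)
  refine ⟨LinearMap.ker (marg_GTrans p q), b, ?_, ?_, ?_, hmem⟩
  · rintro x ⟨hx, -⟩ ⟨i0, j0⟩ h0
    obtain ⟨-, hr, hc⟩ := (hmem x).1 hx
    obtain ⟨y, hy, he⟩ := release_GTrans hu hv huv hnd x hr hc i0 j0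
    refine ⟨Pi.single (i0, j0) 1 - y, ?_, ?_, fun e he hne => ?_⟩
    · rw [LinearMap.mem_ker, map_sub, he, sub_self]
    · simp [hy _ h0]
    · simp [hy _ he, hne]
  · intro w hw h0
    funext ⟨i, j⟩
    have h1 : ∑ j, w (i, j) = 0 := congrFun (congrArg Prod.fst (LinearMap.mem_ker.1 hw)) i
    exact (sum_eq_zero_iff_of_nonneg fun j _ => h0 (i, j)).1 h1 j (mem_univ j)
  · have h1 := LinearMap.finrank_range_add_finrank_ker (marg_GTrans p q)
    have h2 := Submodule.finrank_le (LinearMap.range (marg_GTrans p q))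
    simp only [Module.finrank_prod, Module.finrank_fintype_fun_eq_card, Fintype.card_prod,
      Fintype.card_fin] at h1 h2
    omega

end Pool.Agent.MP_3fd310_co.Gen

end
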